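import Pool.Agent.Lib.MP_e6ed9e_al.Pigeon

/-!
Intransitive subgroups of a spreading group have large index.
-/

namespace SpreadPerm

open Finset

variable {G : Type*} [Group G] {Ω : Type*} [Fintype Ω] [MulAction G Ω]

omit [Fintype Ω] in
/-- If `S` is invariant under `K`, the number of translates of `S` is at most the index of `K`. -/
lemma finrank_gen_le_index [Finite G] (S : Set Ω) (K : Subgroup G)
    (hK : ∀ k ∈ K, ∀ i, k • i ∈ S ↔ i ∈ S) :
    Module.finrank ℚ (gen G S) ≤ K.index := by
  classical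
  have key : ∀ g h : G, g⁻¹ * h ∈ K → vec S g = (vec S h : Ω → ℚ) := by
    intro g h hgh
    funext i
    rw [vec_apply, vec_apply]
    have : h⁻¹ • i ∈ S ↔ g⁻¹ • i ∈ S := by
      have h1 := hK _ hgh (h⁻¹ • i)
      rw [← mul_smul, mul_assoc, mul_inv_cancel, mul_one] at h1
      exact h1.symm
    by_cases hi : g⁻¹ • i ∈ S
    · rw [if_pos hi, if_pos (this.2 hi)]
    · rw [if_neg hi, if_neg fun h' => hi (this.1 h')]
  let f : G ⧸ K → (Ω → ℚ) := fun q => vec S q.out
  have hr : Set.range (vec (G := G) S) ⊆ Set.range f := by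
    rintro _ ⟨g, rfl⟩
    refine ⟨QuotientGroup.mk g, ?_⟩
    refine key _ _ ?_
    rw [← QuotientGroup.eq]
    exact Quotient.out_eq _
  have : Fintype (G ⧸ K) := Fintype.ofFinite _
  have h1 : gen G S ≤ Submodule.span ℚ (Set.range f) := Submodule.span_mono hr
  have : Module.Finite ℚ (Submodule.span ℚ (Set.range f)) :=
    Module.Finite.span_of_finite ℚ (Set.finite_range f)
  calc Module.finrank ℚ (gen G S) ≤ Module.finrank ℚ (Submodule.span ℚ (Set.range f)) :=
        Submodule.finrank_mono h1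
    _ ≤ Fintype.card (G ⧸ K) := finrank_range_le_card f
    _ = K.index := by rw [Subgroup.index_eq_card, Nat.card_eq_fintype_card]

/-- **The index bound.** -/
theorem index_bound [Finite G] [MulAction.IsPretransitive G Ω] (hG : Spreading G Ω)
    (K : Subgroup G) (hK : ¬ MulAction.IsPretransitive K Ω) :
    2 ^ Fintype.card Ω ≤ Fintype.card Ω ^ K.index := by
  classical
  -- an invariant proper nonempty set
  obtain ⟨x, y, hxy⟩ : ∃ x y : Ω, ∀ k ∈ K, k • x ≠ y := by
    by_contra hcon
    push Not at hcon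
    refine hK ⟨fun x y => ?_⟩
    obtain ⟨k, hk, h⟩ := hcon x y
    exact ⟨⟨k, hk⟩, h⟩
  have hinv : ∀ (k : G), k ∈ K → ∀ i, k • i ∈ MulAction.orbit K x ↔ i ∈ MulAction.orbit K x := by
    intro k hk i
    constructor
    · rintro ⟨⟨l, hl⟩, h⟩
      refine ⟨⟨k⁻¹ * l, K.mul_mem (K.inv_mem hk) hl⟩, ?_⟩
      have h' : l • x = k • i := h
      show (k⁻¹ * l) • x = i
      rw [mul_smul, h', inv_smul_smul]
    · rintro ⟨⟨l, hl⟩, h⟩
      refine ⟨⟨k * l, K.mul_mem hk hl⟩, ?_⟩
      have h' : l • x = i := h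
      show (k * l) • x = k • i
      rw [mul_smul, h']
  have hxO : x ∈ MulAction.orbit K x := MulAction.mem_orbit_self x
  have hyO : y ∉ MulAction.orbit K x := by
    rintro ⟨⟨l, hl⟩, h⟩
    exact hxy l hl h
  have hne : x ≠ y := fun h => hyO (h ▸ hxO)
  have hidx : 2 ≤ K.index := by
    have h0 : K.index ≠ 0 := Subgroup.index_ne_zero_of_finite
    have h1 : K.index ≠ 1 := by
      intro h
      rw [Subgroup.index_eq_one] at h
      obtain ⟨g, hg⟩ := MulAction.exists_smul_eq G x y
      exact hxy g (by rw [h]; trivial) hg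
    omega
  have hcard : 2 ≤ Fintype.card Ω := by
    have := Fintype.one_lt_card_iff.2 ⟨x, y, hne⟩
    omega
  rcases Nat.lt_or_ge 2 (Fintype.card Ω) with hn | hn
  swap
  · have h2 : Fintype.card Ω = 2 := by omega
    rw [h2]
    exact Nat.pow_le_pow_right (by norm_num) hidx
  -- choose the set
  obtain ⟨S, hS1, hS2, hSK⟩ : ∃ S : Finset Ω, 1 < S.card ∧ S.card < Fintype.card Ω ∧
      ∀ k ∈ K, ∀ i, k • i ∈ (S : Set Ω) ↔ i ∈ (S : Set Ω) := by
    set O : Finset Ω := Finset.univ.filter fun i => i ∈ MulAction.orbit K x with hO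
    have hOlt : O.card < Fintype.card Ω := by
      rw [← Finset.card_univ]
      refine Finset.card_lt_card ?_
      rw [Finset.ssubset_univ_iff]
      intro h
      have : y ∈ O := by rw [h]; exact Finset.mem_univ _
      rw [hO, Finset.mem_filter] at this
      exact hyO this.2
    rcases Nat.lt_or_ge 1 O.card with h | h
    · refine ⟨O, h, hOlt, ?_⟩
      intro k hk i
      simp only [hO, Finset.coe_filter, Finset.mem_univ, true_and, Set.mem_ofPred_eq]
      exact hinv k hk i
    · have hOpos : 0 < O.card := Finset.card_pos.2 ⟨x, by rw [hO, Finset.mem_filter]; exact ⟨Finset.mem_univ _, hxO⟩⟩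
      refine ⟨Oᶜ, ?_, ?_, ?_⟩
      · rw [Finset.card_compl]; omega
      · rw [Finset.card_compl]; omega
      · intro k hk i
        simp only [hO, Finset.coe_compl, Finset.coe_filter, Finset.mem_univ, true_and,
          Set.mem_compl_iff, Set.mem_ofPred_eq]
        exact not_congr (hinv k hk i)
  have hA := hG
  have hb : ¬ (S.card + 1) ^ Module.finrank ℚ (gen G (S : Set Ω)) < 2 ^ Fintype.card Ω :=
    fun h => hA (nonspreading_of_small S hS1 hS2 h)
  push Not at hb
  refine hb.trans ?_
  calc (S.card + 1) ^ Module.finrank ℚ (gen G (S : Set Ω))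
      ≤ (S.card + 1) ^ K.index :=
        Nat.pow_le_pow_right (by omega) (finrank_gen_le_index _ K hSK)
    _ ≤ Fintype.card Ω ^ K.index := Nat.pow_le_pow_left (by omega) _

end SpreadPerm
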