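import Mathlib

/-!
Spreading groups: the definitions.
-/

namespace SpreadPerm

open Finset

variable {Ω : Type*} [Fintype Ω]

/-- A multiset of `Ω` is a function `Ω → ℕ`; it is trivial if it is constant or if its support
has exactly one point. -/
def Triv (A : Ω → ℕ) : Prop := (∃ c, ∀ i, A i = c) ∨ ∃ i, ∀ j, A j ≠ 0 ↔ j = i

/-- `G` is non-spreading on `Ω`. -/
def NonSpreading (G : Type*) [Group G] (Ω : Type*) [Fintype Ω] [MulAction G Ω] : Prop :=
  ∃ (A B : Ω → ℕ) (l : ℕ), 0 < l ∧ ¬ Triv A ∧ ¬ Triv B ∧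
    (∀ g : G, ∑ i, A i * B (g⁻¹ • i) = l) ∧ (∀ i, B i = 0 ∨ B i = 1) ∧
    (∑ i, A i) ∣ Fintype.card Ω

/-- `G` is spreading on `Ω`. -/
def Spreading (G : Type*) [Group G] (Ω : Type*) [Fintype Ω] [MulAction G Ω] : Prop :=
  ¬ NonSpreading G Ω

/-- The translate by `g` of the indicator vector of the set `S`. -/
noncomputable def vec {G : Type*} [Group G] {Ω : Type*} [MulAction G Ω] (S : Set Ω) (g : G) : Ω → ℚ :=
  Set.indicator S 1 ∘ fun i => g⁻¹ • i

/-- The submodule of the rational permutation module generated by the set `S`: the span of all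
translates of its indicator vector. -/
noncomputable def gen (G : Type*) [Group G] {Ω : Type*} [MulAction G Ω] (S : Set Ω) : Submodule ℚ (Ω → ℚ) :=
  Submodule.span ℚ (Set.range (vec (G := G) S))

end SpreadPerm
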