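import Mathlib

/-!
# Dickson by numbers (ROW DIX, swarm E6, MP_e6ed9e)

A finite group `H` acts on a set `X` (a projective line over a big field); every nontrivial
element fixes one or two points; the elements with the single fixed point `x` form with `1` a `p`-group `U x`. Then `H` fixes a point, or preserves a pair of points, or has order at
most `60`, or has the numbers of `PSL(2, Q)` or `PGL(2, Q)`.
-/

namespace Pool.Agent.Lib.MP_e6ed9e_al.DIX88

open MulAction

/-- Tame case, three orbits. -/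
theorem arith_tame {h a b c k l m : ℕ} (ha : a * k = h) (hb : b * l = h) (hc : c * m = h)
    (hk : 2 ≤ k) (hl : 2 ≤ l) (hm : 2 ≤ m) (hs : a + b + c = h + 2) (h60 : 60 < h) :
    a ≤ 2 ∨ b ≤ 2 ∨ c ≤ 2 := by
  -- reduce to the sorted case
  have key : ∀ {a b c k l m : ℕ}, a * k = h → b * l = h → c * m = h → 2 ≤ k → k ≤ l → l ≤ m →
      a + b + c = h + 2 → c ≤ 2 := by
    intro a b c k l m ha hb hc hk hkl hlm hs
    have hk3 : k < 3 := by
      by_contra hcon
      push Not at hcon
      have h1 : a * 3 ≤ h := by rw [← ha]; exact Nat.mul_le_mul_left a hcon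
      have h2 : b * 3 ≤ h := by rw [← hb]; exact Nat.mul_le_mul_left b (by omega)
      have h3 : c * 3 ≤ h := by rw [← hc]; exact Nat.mul_le_mul_left c (by omega)
      omega
    have hk2 : k = 2 := by omega
    subst hk2
    have hl4 : l < 4 := by
      by_contra hcon
      push Not at hcon
      have h2 : b * 4 ≤ h := by rw [← hb]; exact Nat.mul_le_mul_left b (by omega)
      have h3 : c * 4 ≤ h := by rw [← hc]; exact Nat.mul_le_mul_left c (by omega)
      omega
    interval_cases l
    · omega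
    · have hm6 : m < 6 := by
        by_contra hcon
        push Not at hcon
        have h3 : c * 6 ≤ h := by rw [← hc]; exact Nat.mul_le_mul_left c (by omega)
        omega
      interval_cases m <;> omega
  rcases le_total k l with h1 | h1 <;> rcases le_total l m with h2 | h2 <;>
    rcases le_total k m with h3 | h3
  · exact Or.inr (Or.inr (key ha hb hc hk h1 h2 hs))
  · exact Or.inr (Or.inr (key ha hb hc hk h1 h2 hs))
  · exact Or.inr (Or.inl (key ha hc hb hk h3 h2 (by omega)))
  · exact Or.inr (Or.inl (key hc ha hb hm h3 h1 (by omega)))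
  · exact Or.inr (Or.inr (key hb ha hc hl h1 h3 (by omega)))
  · exact Or.inl (key hb hc ha hl h2 h3 (by omega))
  · exact Or.inl (key hc hb ha hm h2 h1 (by omega))
  · exact Or.inl (key hc hb ha hm h2 h1 (by omega))

/-- Wild case, one tame orbit. -/
theorem arith_wild {Q k s m a f : ℕ} (hQ : 2 < Q) (hk : k ∣ Q - 1) (hf : f = 1 + s * Q)
    (hs : 1 ≤ s) (ha : a = f * (Q - 2) + 2) (hm : a * m = f * Q * k) (h60 : 60 < f * Q * k) :
    s = 1 ∧ (k = Q - 1 ∨ 2 * k = Q - 1) := by
  obtain ⟨R, rfl⟩ : ∃ R, Q = R + 2 := ⟨Q - 2, by omega⟩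
  have hR : 1 ≤ R := by omega
  simp only [Nat.add_sub_cancel] at ha
  have hk' : k ∣ R + 1 := by
    have : R + 2 - 1 = R + 1 := by omega
    rwa [this] at hk
  have hkle : k ≤ R + 1 := Nat.le_of_dvd (by omega) hk'
  have ha' : a = (R + 2) * (1 + s * R) := by rw [ha, hf]; ring
  have hm' : (1 + s * R) * m = f * k := by
    have : (R + 2) * ((1 + s * R) * m) = (R + 2) * (f * k) := by
      calc (R + 2) * ((1 + s * R) * m) = a * m := by rw [ha']; ring
        _ = f * (R + 2) * k := hm
        _ = (R + 2) * (f * k) := by ring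
    exact Nat.eq_of_mul_eq_mul_left (by omega) this
  have hd0 : (1 + s * R) ∣ s * (2 * k) := by
    have h1 : (1 + s * R) ∣ f * k := ⟨m, hm'.symm⟩
    have h2 : f * k = (1 + s * R) * k + s * (2 * k) := by rw [hf]; ring
    rw [h2] at h1
    exact (Nat.dvd_add_right (Dvd.intro _ rfl)).1 h1
  have hcop : Nat.Coprime (1 + s * R) s := by
    simp
  have hd : (1 + s * R) ∣ 2 * k := hcop.dvd_of_dvd_mul_left hd0
  have hkpos : 0 < k := by
    rcases Nat.eq_zero_or_pos k with h0 | h0
    · subst h0; omega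
    · exact h0
  have hle : 1 + s * R ≤ 2 * k := Nat.le_of_dvd (by omega) hd
  have hle2 : 1 + s * R ≤ 2 * (R + 1) := by omega
  -- s ≤ 3
  have hs3 : s ≤ 3 := by
    by_contra hcon
    push Not at hcon
    have : 4 * R ≤ s * R := Nat.mul_le_mul_right R hcon
    omega
  interval_cases s
  · refine ⟨rfl, ?_⟩
    have hd1 : (R + 1) ∣ 2 * k := by
      have : 1 + 1 * R = R + 1 := by ring
      rwa [this] at hd
    obtain ⟨c, hc⟩ := hd1
    have hc2 : c ≤ 2 := by
      by_contra hcon
      push Not at hcon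
      have : (R + 1) * 3 ≤ (R + 1) * c := Nat.mul_le_mul_left _ hcon
      omega
    have hR1 : R + 2 - 1 = R + 1 := by omega
    rw [hR1]
    interval_cases c
    · omega
    · right; omega
    · left; omega
  · exfalso
    -- 1 + 2R odd divides 2k, so divides k
    have hodd : Nat.Coprime (1 + 2 * R) 2 := by simp
    have hd2 : (1 + 2 * R) ∣ k := hodd.dvd_of_dvd_mul_left hd
    have := Nat.le_of_dvd hkpos hd2
    omega
  · exfalso
    have hR1 : R = 1 := by omega
    subst hR1
    have hk2 : k = 2 := by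
      have h4 : 4 ≤ 2 * k := by simpa using hle
      omega
    subst hk2
    rw [hf] at h60
    norm_num at h60

open Classical in
/-- A finite group acting freely on a finite set: its order divides the size of the set. -/
theorem free_dvd {G Y : Type*} [Group G] [Finite G] [MulAction G Y] [Finite Y]
    (hf : ∀ (g : G) (y : Y), g • y = y → g = 1) : Nat.card G ∣ Nat.card Y := by
  cases nonempty_fintype G
  cases nonempty_fintype Y
  have h := MulAction.sum_card_fixedBy_eq_card_orbits_mul_card_group G Y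
  have h1 : ∑ a : G, Fintype.card (fixedBy Y a) = Fintype.card Y := by
    rw [Finset.sum_eq_single (1 : G)]
    · rw [← Nat.card_eq_fintype_card, ← Nat.card_eq_fintype_card]
      have : (fixedBy Y (1 : G)) = Set.univ := by
        ext y; simp
      rw [this, Nat.card_univ]
    · intro b _ hb
      rw [Fintype.card_eq_zero_iff]
      exact ⟨fun y => hb (hf b y.1 y.2)⟩
    · intro h; exact absurd (Finset.mem_univ _) h
  rw [h1] at h
  rw [Nat.card_eq_fintype_card, Nat.card_eq_fintype_card, h]
  exact Dvd.intro_left _ rfl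

/-- Free action on an invariant finite set. -/
theorem card_dvd_ncard {G X : Type*} [Group G] [Finite G] [MulAction G X] (S : Set X)
    (hS : S.Finite) (hinv : ∀ g : G, ∀ s ∈ S, g • s ∈ S)
    (hf : ∀ g : G, ∀ s ∈ S, g • s = s → g = 1) : Nat.card G ∣ S.ncard := by
  let Y : SubMulAction G X := ⟨S, fun c {x} hx => hinv c x hx⟩
  have : Finite Y := hS.to_subtype
  have h := free_dvd (G := G) (Y := Y) (fun g y hy => hf g y.1 y.2 (by
    have := congrArg Subtype.val hy
    simpa using this))
  have h2 : Nat.card Y = S.ncard := rfl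
  rwa [h2] at h

/-- An orbit with at most two points. -/
theorem small_orbit {H X : Type*} [Group H] [Finite H] [MulAction H X] (x : X)
    (hx : (orbit H x).ncard ≤ 2) : (∃ x : X, ∀ h : H, h • x = x) ∨
      (∃ x z : X, x ≠ z ∧ ∀ h : H, (h • x = x ∧ h • z = z) ∨ (h • x = z ∧ h • z = x)) := by
  by_cases h1 : ∀ h : H, h • x = x
  · exact Or.inl ⟨x, h1⟩
  · push Not at h1
    obtain ⟨g, hg⟩ := h1
    right
    have hfin : (orbit H x).Finite := Set.finite_range _
    have hsub : ({x, g • x} : Set X) ⊆ orbit H x := by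
      intro y hy
      rcases hy with rfl | hy
      · exact mem_orbit_self y
      · rw [hy]; exact mem_orbit x g
    have hcard : ({x, g • x} : Set X).ncard = 2 := Set.ncard_pair (Ne.symm hg)
    have heq : ({x, g • x} : Set X) = orbit H x :=
      Set.eq_of_subset_of_ncard_le hsub (by rw [hcard]; exact hx) hfin
    refine ⟨x, g • x, Ne.symm hg, fun h => ?_⟩
    have hx1 : h • x ∈ ({x, g • x} : Set X) := by rw [heq]; exact mem_orbit x h
    have hx2 : h • (g • x) ∈ ({x, g • x} : Set X) := by
      rw [heq, ← mul_smul]; exact mem_orbit x _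
    rcases hx1 with hx1 | hx1 <;> rcases hx2 with hx2 | hx2
    · exfalso
      have : h • x = h • (g • x) := by rw [hx1, hx2]
      exact hg ((MulAction.injective h this).symm)
    · exact Or.inl ⟨hx1, hx2⟩
    · exact Or.inr ⟨hx1, hx2⟩
    · exfalso
      have : h • x = h • (g • x) := by rw [hx1, hx2]
      exact hg ((MulAction.injective h this).symm)

section

variable {H X : Type*} [Group H] [MulAction H X]

theorem conj_mem {U : X → Subgroup H}
    (hU : ∀ x h, h ∈ U x ↔ h = 1 ∨ (∀ y, h • y = y ↔ y = x)) (g h : H) (x : X)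
    (hh : h ∈ U x) : g * h * g⁻¹ ∈ U (g • x) := by
  rw [hU] at hh ⊢
  rcases hh with rfl | hh
  · left; simp
  · right
    intro y
    have h1 : (g * h * g⁻¹) • y = y ↔ h • (g⁻¹ • y) = g⁻¹ • y := by
      rw [mul_smul, mul_smul, smul_eq_iff_eq_inv_smul]
    rw [h1, hh, inv_smul_eq_iff]

theorem card_conj [Finite H] {U : X → Subgroup H}
    (hU : ∀ x h, h ∈ U x ↔ h = 1 ∨ (∀ y, h • y = y ↔ y = x)) (g : H) (x : X) :
    Nat.card (U (g • x)) = Nat.card (U x) := by
  refine Nat.card_congr ?_
  refine ⟨fun u => ⟨g⁻¹ * u.1 * g, ?_⟩, fun u => ⟨g * u.1 * g⁻¹, conj_mem hU g u.1 x u.2⟩, ?_, ?_⟩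
  · have := conj_mem hU g⁻¹ u.1 (g • x) u.2
    simpa using this
  · intro u; ext; simp [mul_assoc]
  · intro u; ext; simp [mul_assoc]

/-- The unipotent group of `x` moves every other point freely. -/
theorem U_free {U : X → Subgroup H}
    (hU : ∀ x h, h ∈ U x ↔ h = 1 ∨ (∀ y, h • y = y ↔ y = x)) (x : X) (u : U x) (y : X)
    (hy : y ≠ x) (huy : u • y = y) : u = 1 := by
  have h := (hU x u.1).1 u.2
  rcases h with h | h
  · exact Subtype.ext h
  · exact absurd ((h y).1 huy) hy

theorem U_fix {U : X → Subgroup H}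
    (hU : ∀ x h, h ∈ U x ↔ h = 1 ∨ (∀ y, h • y = y ↔ y = x)) (x : X) (u : H) (hu : u ∈ U x) :
    u • x = x := by
  rcases (hU x u).1 hu with h | h
  · rw [h, one_smul]
  · exact (h x).2 rfl

/-- invariant finite sets modulo `|U_x|`. -/
theorem dvd_off {U : X → Subgroup H} [Finite H]
    (hU : ∀ x h, h ∈ U x ↔ h = 1 ∨ (∀ y, h • y = y ↔ y = x)) (x : X) (S : Set X)
    (hS : S.Finite) (hinv : ∀ g : H, ∀ s ∈ S, g • s ∈ S) (hx : x ∉ S) :
    Nat.card (U x) ∣ S.ncard :=
  card_dvd_ncard (G := U x) S hS (fun g s hs => hinv g.1 s hs)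
    (fun g s hs h => U_free hU x g s (fun h' => hx (h' ▸ hs)) h)

theorem dvd_on {U : X → Subgroup H} [Finite H]
    (hU : ∀ x h, h ∈ U x ↔ h = 1 ∨ (∀ y, h • y = y ↔ y = x)) (x : X) (S : Set X)
    (hS : S.Finite) (hinv : ∀ g : H, ∀ s ∈ S, g • s ∈ S) :
    Nat.card (U x) ∣ (S \ {x}).ncard :=
  card_dvd_ncard (G := U x) (S \ {x}) (hS.subset Set.sdiff_subset)
    (fun g s hs => ⟨hinv g.1 s hs.1, fun h => hs.2 (by
      have h1 : g.1 • s = g.1 • x := by
        rw [U_fix hU x g.1 g.2]; exact h
      exact MulAction.injective g.1 h1)⟩)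
    (fun g s hs h => U_free hU x g s hs.2 h)

/-- Wild points form one orbit. -/
theorem wild_orbit {U : X → Subgroup H} [Finite H] {p : ℕ} [hp : Fact p.Prime]
    (hU : ∀ x h, h ∈ U x ↔ h = 1 ∨ (∀ y, h • y = y ↔ y = x))
    (hUp : ∀ x, IsPGroup p (U x)) (x : X) (hx : U x ≠ ⊥) :
    {y | U y ≠ ⊥} = orbit H x := by
  have hfin : (orbit H x).Finite := Set.finite_range _
  have hinv : ∀ g : H, ∀ s ∈ orbit H x, g • s ∈ orbit H x := by
    rintro g _ ⟨a, rfl⟩
    exact ⟨g * a, mul_smul g a x⟩
  have hpd : ∀ y, U y ≠ ⊥ → p ∣ Nat.card (U y) := by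
    intro y hy
    rcases (hUp y).card_eq_or_dvd with h | h
    · exact absurd (Subgroup.card_eq_one.1 h) hy
    · exact h
  ext y
  constructor
  · intro hy
    by_contra hcon
    have h1 := (hpd y hy).trans (dvd_off hU y _ hfin hinv hcon)
    have h2 := (hpd x hx).trans (dvd_on hU x _ hfin hinv)
    have h3 : (orbit H x \ {x}).ncard + 1 = (orbit H x).ncard :=
      Set.ncard_sdiff_singleton_add_one (mem_orbit_self x) hfin
    have h4 : p ∣ 1 := by
      rw [← h3] at h1
      exact (Nat.dvd_add_right h2).1 h1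
    exact hp.out.one_lt.ne' (Nat.dvd_one.1 h4)
  · rintro ⟨g, rfl⟩
    show U (g • x) ≠ ⊥
    intro h
    have h1 := card_conj hU g x
    rw [h, Subgroup.card_bot] at h1
    exact hx (Subgroup.card_eq_one.1 h1.symm)

end

variable {H X : Type*} [Group H] [MulAction H X]

/-- The stabilizer of `x` acts on the nontrivial elements of `U x` by conjugation. -/
@[reducible] def conjAct {U : X → Subgroup H}
    (hU : ∀ x h, h ∈ U x ↔ h = 1 ∨ (∀ y, h • y = y ↔ y = x)) (x : X) :
    MulAction (stabilizer H x) {u : H // u ∈ U x ∧ u ≠ 1} where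
  smul g u := ⟨g.1 * u.1 * g.1⁻¹, by
    have h := conj_mem hU g.1 u.1 x u.2.1
    rwa [mem_stabilizer_iff.1 g.2] at h, by
    intro h
    apply u.2.2
    have h2 : u.1 = g.1⁻¹ * (g.1 * u.1 * g.1⁻¹) * g.1 := by group
    rw [h2, h]; group⟩
  one_smul u := by
    apply Subtype.ext
    show (1 : H) * u.1 * (1 : H)⁻¹ = u.1
    simp
  mul_smul a b u := by
    apply Subtype.ext
    show (a.1 * b.1) * u.1 * (a.1 * b.1)⁻¹ = a.1 * (b.1 * u.1 * b.1⁻¹) * a.1⁻¹
    group

omit [MulAction H X] in
theorem card_U_sub [Finite H] {U : X → Subgroup H} (x : X) :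
    Nat.card {u : H // u ∈ U x ∧ u ≠ 1} = Nat.card (U x) - 1 := by
  have h1 : Nat.card {u : H // u ∈ U x ∧ u ≠ 1} = ((U x : Set H) \ {1}).ncard := rfl
  have h2 : Nat.card (U x) = (U x : Set H).ncard := rfl
  rw [h1, h2, Set.ncard_sdiff_singleton_of_mem (U x).one_mem]

theorem U_le_stab {U : X → Subgroup H}
    (hU : ∀ x h, h ∈ U x ↔ h = 1 ∨ (∀ y, h • y = y ↔ y = x)) (x : X) :
    U x ≤ stabilizer H x := fun u hu => mem_stabilizer_iff.2 (U_fix hU x u hu)

/-- The poles: points with nontrivial stabilizer. -/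
def poles (H X : Type*) [Group H] [MulAction H X] : SubMulAction H X where
  carrier := {x | ∃ h : H, h ≠ 1 ∧ h • x = x}
  smul_mem' := by
    rintro c x ⟨h, h1, hx⟩
    refine ⟨c * h * c⁻¹, ?_, ?_⟩
    · intro hc
      apply h1
      have : h = c⁻¹ * (c * h * c⁻¹) * c := by group
      rw [this, hc]; group
    · rw [mul_smul, mul_smul, inv_smul_smul, hx]

theorem fix_cases (h1 : ∀ h : H, h ≠ 1 → ∃ x : X, h • x = x)
    (h2 : ∀ (h : H) (x y z : X), x ≠ y → x ≠ z → y ≠ z → h • x = x → h • y = y → h • z = z →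
      h = 1) (h : H) (hh : h ≠ 1) :
    (∃ x : X, ∀ z, h • z = z ↔ z = x) ∨
      ((¬ ∃ x : X, ∀ z, h • z = z ↔ z = x) ∧ ∃ x y : X, x ≠ y ∧
        {z | h • z = z} = ({x, y} : Set X)) := by
  by_cases hw : ∃ x : X, ∀ z, h • z = z ↔ z = x
  · exact Or.inl hw
  · refine Or.inr ⟨hw, ?_⟩
    obtain ⟨x, hx⟩ := h1 h hh
    push Not at hw
    obtain ⟨y, hy⟩ := hw x
    have hy' : h • y = y ∧ y ≠ x := by
      rcases hy with hy | hy
      · exact hy
      · exact absurd (by rw [hy.2]; exact hx) hy.1
    refine ⟨x, y, hy'.2.symm, ?_⟩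
    ext z
    constructor
    · intro hz
      by_contra hcon
      simp only [Set.mem_insert_iff, Set.mem_singleton_iff, not_or] at hcon
      exact hh (h2 h x y z hy'.2.symm (Ne.symm hcon.1) (Ne.symm hcon.2) hx hy'.1 hz)
    · rintro (rfl | rfl)
      · exact hx
      · exact hy'.1

theorem poles_finite [Finite H] (h1 : ∀ h : H, h ≠ 1 → ∃ x : X, h • x = x)
    (h2 : ∀ (h : H) (x y z : X), x ≠ y → x ≠ z → y ≠ z → h • x = x → h • y = y → h • z = z →
      h = 1) : Finite (poles H X) := by
  have hsub : ((poles H X : SubMulAction H X) : Set X) ⊆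
      ⋃ h : {h : H // h ≠ 1}, {z : X | h.1 • z = z} := by
    rintro x ⟨h, hh, hx⟩
    exact Set.mem_iUnion.2 ⟨⟨h, hh⟩, hx⟩
  refine Set.Finite.to_subtype ((Set.finite_iUnion ?_).subset hsub)
  rintro ⟨h, hh⟩
  rcases fix_cases h1 h2 h hh with ⟨x, hx⟩ | ⟨_, x, y, _, hxy⟩
  · have : {z : X | h • z = z} = {x} := by ext z; simp [hx z]
    rw [this]; exact Set.finite_singleton x
  · rw [hxy]; exact Set.toFinite _

open Classical in
theorem card_fixedBy (h1 : ∀ h : H, h ≠ 1 → ∃ x : X, h • x = x)
    (h2 : ∀ (h : H) (x y z : X), x ≠ y → x ≠ z → y ≠ z → h • x = x → h • y = y → h • z = z →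
      h = 1) (h : H) (hh : h ≠ 1) :
    Nat.card (fixedBy (poles H X) h) + (if (∃ x : X, ∀ z, h • z = z ↔ z = x) then 1 else 0) = 2
    := by
  have hc : Nat.card (fixedBy (poles H X) h) = ({z : X | h • z = z}).ncard := by
    have : ({z : X | h • z = z}).ncard = Nat.card {z : X // h • z = z} := rfl
    rw [this]
    refine Nat.card_congr ⟨fun z => ⟨z.1.1, by
      have h3 := z.2
      rw [mem_fixedBy] at h3
      have := congrArg Subtype.val h3
      simpa using this⟩, fun z => ⟨⟨z.1, ⟨h, hh, z.2⟩⟩, by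
      rw [mem_fixedBy]
      exact Subtype.ext z.2⟩, fun _ => rfl, fun _ => rfl⟩
  rw [hc]
  rcases fix_cases h1 h2 h hh with hx | ⟨hn, x, y, hne, hxy⟩
  · rw [if_pos hx]
    obtain ⟨x, hx⟩ := hx
    have : {z : X | h • z = z} = {x} := by ext z; simp [hx z]
    rw [this, Set.ncard_singleton]
  · rw [if_neg hn, hxy, Set.ncard_pair hne]

open Classical in
/-- The count of Klein and Burnside, with wild elements. -/
theorem main_count [Fintype H] [Fintype (poles H X)]
    (h1 : ∀ h : H, h ≠ 1 → ∃ x : X, h • x = x)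
    (h2 : ∀ (h : H) (x y z : X), x ≠ y → x ≠ z → y ≠ z → h • x = x → h • y = y → h • z = z →
      h = 1) :
    Fintype.card (Quotient (orbitRel H (poles H X))) * Fintype.card H +
      (Finset.univ.filter (fun h : H => h ≠ 1 ∧ ∃ x : X, ∀ z, h • z = z ↔ z = x)).card =
    Nat.card (poles H X) + 2 * (Fintype.card H - 1) := by
  rw [← MulAction.sum_card_fixedBy_eq_card_orbits_mul_card_group H (poles H X)]
  rw [Finset.card_filter, ← Finset.sum_add_distrib]
  rw [← Finset.add_sum_erase _ _ (Finset.mem_univ (1 : H))]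
  have hone : Fintype.card (fixedBy (poles H X) (1 : H)) = Nat.card (poles H X) := by
    have : (fixedBy (poles H X) (1 : H)) = Set.univ := by
      ext y; simp
    rw [← Nat.card_eq_fintype_card, this, Nat.card_univ]
  rw [if_neg (by simp), hone]
  have hsum : ∑ x ∈ (Finset.univ : Finset H).erase 1, (Fintype.card (fixedBy (poles H X) x) +
      if x ≠ 1 ∧ ∃ x_1 : X, ∀ z, x • z = z ↔ z = x_1 then 1 else 0) =
      ∑ x ∈ (Finset.univ : Finset H).erase 1, 2 := by
    refine Finset.sum_congr rfl (fun h hh => ?_)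
    have hh1 : h ≠ 1 := Finset.ne_of_mem_erase hh
    rw [← card_fixedBy h1 h2 h hh1, Nat.card_eq_fintype_card]
    simp only [ne_eq, hh1, not_false_eq_true, true_and]
  rw [hsum, Finset.sum_const, Finset.card_erase_of_mem (Finset.mem_univ _), Finset.card_univ,
    smul_eq_mul, mul_comm (Fintype.card H - 1)]
  ring

theorem wild_finite {U : X → Subgroup H} [Finite H]
    (hU : ∀ x h, h ∈ U x ↔ h = 1 ∨ (∀ y, h • y = y ↔ y = x)) : {x | U x ≠ ⊥}.Finite := by
  have hch : ∀ x : {x : X // U x ≠ ⊥}, ∃ h : H, ∀ y : X, h • y = y ↔ y = x.1 := by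
    rintro ⟨x, hx⟩
    obtain ⟨h, hh, h1⟩ := (Subgroup.bot_or_exists_ne_one (U x)).resolve_left hx
    rcases (hU x h).1 hh with h2 | h2
    · exact absurd h2 h1
    · exact ⟨h, h2⟩
  choose F hF using hch
  have hinj : Function.Injective F := by
    intro a b hab
    have h1 := (hF a a.1).2 rfl
    rw [hab] at h1
    exact Subtype.ext ((hF b a.1).1 h1)
  have : Finite {x : X // U x ≠ ⊥} := Finite.of_injective F hinj
  exact Set.finite_coe_iff.1 this

open Classical in
/-- The number of wild elements, when all wild groups have order `Q`. -/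
theorem wild_card {U : X → Subgroup H} [Fintype H]
    (hU : ∀ x h, h ∈ U x ↔ h = 1 ∨ (∀ y, h • y = y ↔ y = x)) {Q : ℕ}
    (hQ : ∀ x, U x ≠ ⊥ → Nat.card (U x) = Q) :
    (Finset.univ.filter (fun h : H => h ≠ 1 ∧ ∃ x : X, ∀ z, h • z = z ↔ z = x)).card =
      {x | U x ≠ ⊥}.ncard * (Q - 1) := by
  have hfin := wild_finite (U := U) hU
  set W : Finset X := hfin.toFinset with hW
  have hset : (Finset.univ.filter (fun h : H => h ≠ 1 ∧ ∃ x : X, ∀ z, h • z = z ↔ z = x)) =
      W.biUnion (fun x => Finset.univ.filter (fun h : H => h ∈ U x ∧ h ≠ 1)) := by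
    ext h
    simp only [Finset.mem_filter, Finset.mem_univ, true_and, Finset.mem_biUnion]
    constructor
    · rintro ⟨hh, x, hx⟩
      have hmem : h ∈ U x := (hU x h).2 (Or.inr hx)
      refine ⟨x, ?_, hmem, hh⟩
      rw [hW, Set.Finite.mem_toFinset]
      intro hbot
      rw [hbot] at hmem
      exact hh (Subgroup.mem_bot.1 hmem)
    · rintro ⟨x, _, hmem, hh⟩
      refine ⟨hh, x, ?_⟩
      rcases (hU x h).1 hmem with h2 | h2
      · exact absurd h2 hh
      · exact h2
  rw [hset, Finset.card_biUnion]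
  · have : ∀ x ∈ W, (Finset.univ.filter (fun h : H => h ∈ U x ∧ h ≠ 1)).card = Q - 1 := by
      intro x hx
      have hx' : U x ≠ ⊥ := by
        rw [hW, Set.Finite.mem_toFinset] at hx; exact hx
      have h1 : (Finset.univ.filter (fun h : H => h ∈ U x ∧ h ≠ 1)) =
          (Finset.univ.filter (fun h : H => h ∈ U x)).erase 1 := by
        ext h; simp [and_comm]
      have h3 : (Finset.univ.filter (fun h : H => h ∈ U x)).card = Q := by
        rw [← hQ x hx', Nat.card_eq_fintype_card, Fintype.card_subtype]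
      rw [h1, Finset.card_erase_of_mem (by simp [(U x).one_mem]), h3]
    rw [Finset.sum_congr rfl this, Finset.sum_const, smul_eq_mul]
    congr 1
    rw [hW, Set.ncard_eq_toFinset_card _ hfin]
  · intro x _ y _ hxy
    rw [Function.onFun, Finset.disjoint_left]
    intro h hx hy
    simp only [Finset.mem_filter, Finset.mem_univ, true_and] at hx hy
    rcases (hU x h).1 hx.1 with h2 | h2
    · exact hx.2 h2
    · rcases (hU y h).1 hy.1 with h3 | h3
      · exact hx.2 h3
      · exact hxy ((h3 x).1 ((h2 x).2 rfl))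

theorem orbit_mul [Finite H] (Y : Type*) [MulAction H Y] (y : Y) :
    Nat.card (orbit H y) * Nat.card (stabilizer H y) = Nat.card H := by
  rw [Nat.card_congr (orbitEquivQuotientStabilizer H y)]
  exact (Subgroup.card_eq_card_quotient_mul_card_subgroup (stabilizer H y)).symm

theorem sub_orbit [Finite H] (S : SubMulAction H X) (y : S) :
    Nat.card (orbit H y) = (orbit H (y : X)).ncard := by
  rw [← SubMulAction.val_image_orbit, Set.ncard_image_of_injective _ Subtype.val_injective]
  rfl

/-- The second fixed points of the elements of the stabilizer of `x`. -/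
def seconds (H : Type*) {X : Type*} [Group H] [MulAction H X] (x : X) :
    SubMulAction (stabilizer H x) X where
  carrier := {y | y ≠ x ∧ ∃ g : H, g ≠ 1 ∧ g • x = x ∧ g • y = y}
  smul_mem' := by
    rintro c y ⟨hy, g, hg, hgx, hgy⟩
    have hcx : c.1 • x = x := mem_stabilizer_iff.1 c.2
    have hcx' : c.1⁻¹ • x = x := by rw [inv_smul_eq_iff]; exact hcx.symm
    refine ⟨?_, c.1 * g * c.1⁻¹, ?_, ?_, ?_⟩
    · intro h
      apply hy
      have : c.1 • y = c.1 • x := by rw [hcx]; exact h
      exact MulAction.injective _ this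
    · intro hc
      apply hg
      have : g = c.1⁻¹ * (c.1 * g * c.1⁻¹) * c.1 := by group
      rw [this, hc]; group
    · rw [mul_smul, mul_smul, hcx', hgx, hcx]
    · show (c.1 * g * c.1⁻¹) • (c.1 • y) = c.1 • y
      rw [mul_smul, mul_smul, inv_smul_smul, hgy]

open Classical in
/-- `|H_x| = Q k` with `k | Q - 1`; if `k > 1` then `k` is the order of a torus. -/
theorem index_dvd' [Finite H] {U : X → Subgroup H}
    (h1 : ∀ h : H, h ≠ 1 → ∃ x : X, h • x = x)
    (h2 : ∀ (h : H) (x y z : X), x ≠ y → x ≠ z → y ≠ z → h • x = x → h • y = y → h • z = z →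
      h = 1)
    (hU : ∀ x h, h ∈ U x ↔ h = 1 ∨ (∀ y, h • y = y ↔ y = x)) (x : X) :
    ∃ k, Nat.card (stabilizer H x) = Nat.card (U x) * k ∧ k ∣ Nat.card (U x) - 1 := by
  set Q := Nat.card (U x) with hQ
  have hPf := poles_finite h1 h2
  have hSf : Finite (seconds H x) := by
    have hsub : ((seconds H x : SubMulAction (stabilizer H x) X) : Set X) ⊆
        ((poles H X : SubMulAction H X) : Set X) := by
      rintro y ⟨_, g, hg, _, hgy⟩
      exact ⟨g, hg, hgy⟩
    exact Set.Finite.to_subtype ((Set.finite_coe_iff.1 hPf).subset hsub)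
  cases nonempty_fintype (seconds H x)
  cases nonempty_fintype (stabilizer H x)
  set G := stabilizer H x with hG
  -- Burnside
  have hb := MulAction.sum_card_fixedBy_eq_card_orbits_mul_card_group G (seconds H x)
  set R := Quotient (orbitRel G (seconds H x)) with hR
  have hb' : ∑ g : G, (Fintype.card (fixedBy (seconds H x) g) + (if g.1 ∈ U x then 1 else 0)) =
      ∑ g : G, ((if g = 1 then Nat.card (seconds H x) else 0) + 1) := by
    refine Finset.sum_congr rfl (fun g _ => ?_)
    by_cases hg1 : g = 1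
    · rw [if_pos hg1, hg1]
      have : (fixedBy (seconds H x) (1 : G)) = Set.univ := by
        ext y; simp
      rw [← Nat.card_eq_fintype_card, this, Nat.card_univ, if_pos]
      exact (U x).one_mem
    · rw [if_neg hg1]
      have hg1' : g.1 ≠ 1 := fun h => hg1 (Subtype.ext h)
      have hgx : g.1 • x = x := mem_stabilizer_iff.1 g.2
      by_cases hgU : g.1 ∈ U x
      · rw [if_pos hgU]
        have : Fintype.card (fixedBy (seconds H x) g) = 0 := by
          rw [Fintype.card_eq_zero_iff]
          refine ⟨fun y => ?_⟩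
          have hy : g.1 • (y.1 : X) = y.1 := by
            have h3 := y.2
            rw [mem_fixedBy] at h3
            exact congrArg Subtype.val h3
          rcases (hU x g.1).1 hgU with h3 | h3
          · exact hg1' h3
          · exact y.1.2.1 ((h3 _).1 hy)
        rw [this]
      · rw [if_neg hgU]
        rw [hU] at hgU
        push Not at hgU
        obtain ⟨_, y, hy⟩ := hgU
        have hy' : g.1 • y = y ∧ y ≠ x := by
          rcases hy with hy | hy
          · exact hy
          · exact absurd (by rw [hy.2]; exact hgx) hy.1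
        have : Fintype.card (fixedBy (seconds H x) g) = 1 := by
          rw [Fintype.card_eq_one_iff]
          refine ⟨⟨⟨y, hy'.2, g.1, hg1', hgx, hy'.1⟩, Subtype.ext hy'.1⟩, ?_⟩
          intro z
          have hz : g.1 • (z.1 : X) = z.1 := by
            have h3 := z.2
            rw [mem_fixedBy] at h3
            exact congrArg Subtype.val h3
          apply Subtype.ext
          apply Subtype.ext
          by_contra hcon
          exact hg1' (h2 g.1 x y z.1 hy'.2.symm z.1.2.1.symm (Ne.symm hcon) hgx hy'.1 hz)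
        rw [this]
  rw [Finset.sum_add_distrib, hb, Finset.sum_add_distrib] at hb'
  have hcU : ∑ g : G, (if g.1 ∈ U x then 1 else 0) = Q := by
    rw [← Finset.card_filter, ← Fintype.card_subtype, ← Nat.card_eq_fintype_card]
    refine Nat.card_congr ?_
    exact ⟨fun g => ⟨g.1.1, g.2⟩, fun v => ⟨⟨v.1, U_le_stab hU x v.2⟩, v.2⟩,
      fun _ => rfl, fun _ => rfl⟩
  rw [hcU, Finset.sum_ite_eq' Finset.univ (1 : G), if_pos (Finset.mem_univ _),
    Finset.sum_const, Finset.card_univ, smul_eq_mul, mul_one] at hb'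
  rw [← Nat.card_eq_fintype_card (α := G)] at hb'
  -- orbits
  let a : R → ℕ := fun ω => Nat.card (orbit G ω.out)
  let k : R → ℕ := fun ω => Nat.card (stabilizer G ω.out)
  have hsum : Nat.card (seconds H x) = ∑ ω : R, a ω := by
    rw [Nat.card_congr (selfEquivSigmaOrbits G (seconds H x)), Nat.card_sigma]
  have hmul : ∀ ω, a ω * k ω = Nat.card G := fun ω => orbit_mul _ _
  have hk2 : ∀ ω, 2 ≤ k ω := by
    intro ω
    obtain ⟨_, h, hh, hx, hy⟩ := (ω.out).2
    have hmem : (⟨h, mem_stabilizer_iff.2 hx⟩ : G) ∈ stabilizer G (ω.out) :=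
      mem_stabilizer_iff.2 (Subtype.ext hy)
    have : Nontrivial (stabilizer G ω.out) :=
      ⟨⟨⟨_, hmem⟩, 1, fun hc => hh (congrArg Subtype.val (congrArg Subtype.val hc))⟩⟩
    exact Finite.one_lt_card
  have hhalf : ∀ ω, 2 * a ω ≤ Nat.card G := by
    intro ω
    rw [← hmul ω, mul_comm 2]
    exact Nat.mul_le_mul_left _ (hk2 ω)
  have hall : 2 * ∑ ω : R, a ω ≤ Fintype.card R * Nat.card G := by
    rw [Finset.mul_sum]
    calc _ ≤ ∑ ω : R, Nat.card G := Finset.sum_le_sum (fun ω _ => hhalf ω)
      _ = _ := by rw [Finset.sum_const, smul_eq_mul]; rfl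
  rw [hsum] at hb'
  change Fintype.card R * Nat.card G + Q = _ at hb'
  have hQpos : 1 ≤ Q := Nat.card_pos
  have hr : Fintype.card R < 2 := by
    by_contra hcon
    push Not at hcon
    have h3 : 2 * Nat.card G ≤ Fintype.card R * Nat.card G := Nat.mul_le_mul_right _ hcon
    omega
  have hcardR : Fintype.card R = (Finset.univ : Finset R).card := rfl
  rcases Nat.lt_or_ge (Fintype.card R) 1 with h0 | h0
  · have hc : (Finset.univ : Finset R).card = 0 := by omega
    rw [hcardR, hc, Finset.card_eq_zero.1 hc, Finset.sum_empty] at hb'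
    exact ⟨1, by omega, one_dvd _⟩
  · have hc : (Finset.univ : Finset R).card = 1 := by omega
    obtain ⟨ω, hω⟩ := Finset.card_eq_one.1 hc
    rw [hcardR, hc, hω, Finset.sum_singleton] at hb'
    have haQ : a ω = Q := by omega
    refine ⟨k ω, by rw [← haQ, hmul ω], ?_⟩
    let _inst := conjAct hU x
    have hfree := free_dvd (G := stabilizer G ω.out) (Y := {u : H // u ∈ U x ∧ u ≠ 1}) (by
      intro t u htu
      have htu' : t.1.1 * u.1 * t.1.1⁻¹ = u.1 := congrArg Subtype.val htu
      rw [mul_inv_eq_iff_eq_mul] at htu'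
      have htx : t.1.1 • x = x := mem_stabilizer_iff.1 t.1.2
      have hty : t.1.1 • (ω.out).1 = (ω.out).1 :=
        congrArg Subtype.val (mem_stabilizer_iff.1 t.2)
      have hyx : (ω.out).1 ≠ x := (ω.out).2.1
      have hu1 : ∀ z, u.1 • z = z ↔ z = x := by
        rcases (hU x u.1).1 u.2.1 with h | h
        · exact absurd h u.2.2
        · exact h
      have hguy : t.1.1 • (u.1 • (ω.out).1) = u.1 • (ω.out).1 := by
        rw [← mul_smul, htu', mul_smul, hty]
      have ht : t.1.1 = 1 := by
        refine h2 t.1.1 x (ω.out).1 (u.1 • (ω.out).1) hyx.symm ?_ ?_ htx hty hguy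
        · intro h
          apply hyx
          have : u.1 • (ω.out).1 = u.1 • x := by rw [(hu1 x).2 rfl]; exact h.symm
          exact MulAction.injective _ this
        · intro h
          exact hyx ((hu1 _).1 h.symm)
      exact Subtype.ext (Subtype.ext ht))
    rw [card_U_sub] at hfree
    exact hfree

/-- DICKSON BY NUMBERS. -/
theorem dix [Finite H] {p : ℕ} [Fact p.Prime]
    (h1 : ∀ h : H, h ≠ 1 → ∃ x : X, h • x = x)
    (h2 : ∀ (h : H) (x y z : X), x ≠ y → x ≠ z → y ≠ z → h • x = x → h • y = y → h • z = z →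
      h = 1)
    (U : X → Subgroup H)
    (hU : ∀ x h, h ∈ U x ↔ h = 1 ∨ (∀ y, h • y = y ↔ y = x))
    (hUp : ∀ x, IsPGroup p (U x)) :
    (∃ x : X, ∀ h : H, h • x = x) ∨
    (∃ x z : X, x ≠ z ∧ ∀ h : H, (h • x = x ∧ h • z = z) ∨ (h • x = z ∧ h • z = x)) ∨
    Nat.card H ≤ 60 ∨
    (∃ Q k : ℕ, 2 < Q ∧ {x | U x ≠ ⊥}.ncard = Q + 1 ∧
      (∀ x, U x ≠ ⊥ → Nat.card (U x) = Q ∧ Nat.card (stabilizer H x) = Q * k) ∧
      Nat.card H = Q * k * (Q + 1) ∧ (k = Q - 1 ∨ 2 * k = Q - 1)) := by
  classical
  cases nonempty_fintype H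
  by_cases h60 : Nat.card H ≤ 60
  · exact Or.inr (Or.inr (Or.inl h60))
  push Not at h60
  have hPf := poles_finite h1 h2
  cases nonempty_fintype (poles H X)
  -- the orbits
  set R := Quotient (orbitRel H (poles H X)) with hR
  let a : R → ℕ := fun ω => Nat.card (orbit H ω.out)
  let k : R → ℕ := fun ω => Nat.card (stabilizer H ω.out)
  have hsum : Nat.card (poles H X) = ∑ ω : R, a ω := by
    rw [Nat.card_congr (selfEquivSigmaOrbits H (poles H X)), Nat.card_sigma]
  have hmul : ∀ ω, a ω * k ω = Nat.card H := fun ω => orbit_mul _ _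
  have hk2 : ∀ ω, 2 ≤ k ω := by
    intro ω
    obtain ⟨h, hh, hx⟩ := (ω.out).2
    have hmem : h ∈ stabilizer H (ω.out) := mem_stabilizer_iff.2 (Subtype.ext hx)
    have : Nontrivial (stabilizer H ω.out) :=
      ⟨⟨⟨h, hmem⟩, 1, fun hc => hh (congrArg Subtype.val hc)⟩⟩
    exact Finite.one_lt_card
  have hapos : ∀ ω, 1 ≤ a ω := by
    intro ω
    rcases Nat.eq_zero_or_pos (a ω) with h0 | h0
    · have := hmul ω
      rw [h0] at this
      omega
    · exact h0
  have hhalf : ∀ ω, 2 * a ω ≤ Nat.card H := by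
    intro ω
    rw [← hmul ω, mul_comm 2]
    exact Nat.mul_le_mul_left _ (hk2 ω)
  have hsmall : ∀ ω, a ω ≤ 2 → (∃ x : X, ∀ h : H, h • x = x) ∨
      (∃ x z : X, x ≠ z ∧ ∀ h : H, (h • x = x ∧ h • z = z) ∨ (h • x = z ∧ h • z = x)) := by
    intro ω hω
    refine small_orbit (ω.out : X) ?_
    rw [← sub_orbit]
    exact hω
  have hcount := main_count (H := H) (X := X) h1 h2
  rw [hsum, ← Nat.card_eq_fintype_card (α := H)] at hcount
  change Fintype.card R * Nat.card H + _ = _ at hcount
  have hcardR : Fintype.card R = (Finset.univ : Finset R).card := rfl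
  by_cases hwild : ∃ x, U x ≠ ⊥
  · -- wild case
    obtain ⟨x0, hx0⟩ := hwild
    have horb := wild_orbit hU hUp x0 hx0
    set Q := Nat.card (U x0) with hQdef
    have hQ : ∀ x, U x ≠ ⊥ → Nat.card (U x) = Q ∧
        Nat.card (stabilizer H x) = Nat.card (stabilizer H x0) := by
      intro x hx
      have hx' : x ∈ orbit H x0 := by rw [← horb]; exact hx
      obtain ⟨g, rfl⟩ := hx'
      refine ⟨card_conj hU g x0, ?_⟩
      exact Nat.card_congr (stabilizerEquivStabilizerOfOrbitRel
        (show orbitRel H X (g • x0) x0 from ⟨g, rfl⟩)).toEquiv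
    have hQ2 : 2 ≤ Q := by
      have : Nontrivial (U x0) := (Subgroup.nontrivial_iff_ne_bot _).2 hx0
      exact Finite.one_lt_card
    obtain ⟨m, hm, hmQ⟩ := index_dvd' h1 h2 hU x0
    rw [← hQdef] at hm hmQ
    have hfin : (orbit H x0).Finite := Set.finite_range _
    have hinv : ∀ g : H, ∀ s ∈ orbit H x0, g • s ∈ orbit H x0 := by
      rintro g _ ⟨b, rfl⟩
      exact ⟨g * b, mul_smul g b x0⟩
    set f := (orbit H x0).ncard with hf
    have hfm : f * (Q * m) = Nat.card H := by
      have h3 := orbit_mul (H := H) X x0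
      rw [hm] at h3
      exact h3
    obtain ⟨s, hs⟩ := dvd_on hU x0 _ hfin hinv
    have hfs : f = 1 + s * Q := by
      have := Set.ncard_sdiff_singleton_add_one (mem_orbit_self x0) hfin
      rw [hs, ← hf, ← hQdef] at this
      rw [← this]; ring
    have hw := wild_card (U := U) hU (fun x hx => (hQ x hx).1)
    rw [hw, horb, ← hf] at hcount
    -- the wild orbit among the orbits of poles
    obtain ⟨u0, hu0, hu1⟩ := (Subgroup.bot_or_exists_ne_one (U x0)).resolve_left hx0
    let y0 : poles H X := ⟨x0, u0, hu1, U_fix hU x0 u0 hu0⟩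
    let ω0 : R := Quotient.mk _ y0
    have ha0 : a ω0 = f := by
      have h3 : ω0.out ∈ orbit H y0 := orbitRel_apply.1 (Quotient.exact (Quotient.out_eq ω0))
      have h4 : orbit H ω0.out = orbit H y0 := orbit_eq_iff.2 h3
      show Nat.card (orbit H ω0.out) = f
      rw [h4, sub_orbit]
    have hsplit := Finset.add_sum_erase (Finset.univ : Finset R) a (Finset.mem_univ ω0)
    rw [← hsplit, ha0, hcardR, ← Finset.card_erase_add_one (Finset.mem_univ ω0)] at hcount
    have hrest : 2 * ∑ ω ∈ (Finset.univ : Finset R).erase ω0, a ω ≤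
        ((Finset.univ : Finset R).erase ω0).card * Nat.card H := by
      rw [Finset.mul_sum]
      calc _ ≤ ∑ ω ∈ (Finset.univ : Finset R).erase ω0, Nat.card H :=
            Finset.sum_le_sum (fun ω _ => hhalf ω)
        _ = _ := by rw [Finset.sum_const, smul_eq_mul]
    obtain ⟨T, hT⟩ : ∃ T, Q = T + 2 := ⟨Q - 2, by omega⟩
    have hfpos : 1 ≤ f := by omega
    have hQ1 : f * (Q - 1) = f * T + f := by
      have : Q - 1 = T + 1 := by omega
      rw [this]; ring
    rw [hQ1] at hcount
    set E := (Finset.univ : Finset R).erase ω0 with hE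
    have hr1 : E.card < 2 := by
      by_contra hcon
      push Not at hcon
      have h3 : 2 * Nat.card H ≤ E.card * Nat.card H := Nat.mul_le_mul_right _ hcon
      have h4 : (E.card + 1) * Nat.card H = E.card * Nat.card H + Nat.card H := by ring
      rw [h4] at hcount
      omega
    have hfix : f = 1 → (∃ x : X, ∀ h : H, h • x = x) := by
      intro h3
      refine ⟨x0, fun g => ?_⟩
      have h4 : (orbit H x0) = {x0} := by
        obtain ⟨z, hz⟩ := Set.ncard_eq_one.1 h3
        have := mem_orbit_self (M := H) x0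
        rw [hz] at this ⊢
        rw [Set.mem_singleton_iff.1 this]
      have h5 : g • x0 ∈ orbit H x0 := mem_orbit _ _
      rw [h4] at h5
      exact h5
    rcases Nat.lt_or_ge E.card 1 with hE0 | hE1
    · -- no tame orbit
      have hEc : E.card = 0 := by omega
      have hEe : E = ∅ := Finset.card_eq_zero.1 hEc
      rw [hEc, hEe, Finset.sum_empty] at hcount
      left
      apply hfix
      -- f T + 2 = h = f Q m
      have h3 : f * T + 2 = f * (Q * m) := by omega
      have hm1 : 1 ≤ m := by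
        rcases Nat.eq_zero_or_pos m with h0 | h0
        · rw [h0, Nat.mul_zero, Nat.mul_zero] at hfm; omega
        · exact h0
      have h4 : f * (T + 2) ≤ f * (Q * m) := by
        apply Nat.mul_le_mul_left
        rw [hT]
        exact Nat.le_mul_of_pos_right _ hm1
      have h5 : f * (T + 2) = f * T + 2 * f := by ring
      omega
    · -- one tame orbit
      have hEc : E.card = 1 := by omega
      obtain ⟨ω1, hω1⟩ := Finset.card_eq_one.1 hEc
      rw [hEc, hω1, Finset.sum_singleton] at hcount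
      have ha1 : a ω1 = f * T + 2 := by omega
      rcases Nat.eq_zero_or_pos s with hs0 | hs0
      · left
        apply hfix
        rw [hfs, hs0]; ring
      · rcases Nat.lt_or_ge 2 Q with hQ3 | hQ3
        · right; right; right
          have hT2 : Q - 2 = T := by omega
          have h3 := arith_wild (Q := Q) (k := m) (s := s) (m := k ω1) (a := a ω1) (f := f)
            hQ3 hmQ hfs hs0 (by rw [hT2]; exact ha1)
            (by rw [hmul ω1, ← hfm]; ring) (by rw [mul_assoc, hfm]; exact h60)
          obtain ⟨hs1, hm1⟩ := h3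
          subst hs1
          refine ⟨Q, m, hQ3, ?_, fun x hx => ⟨(hQ x hx).1, (hQ x hx).2.trans hm⟩, ?_, hm1⟩
          · rw [horb, ← hf, hfs]; ring
          · rw [← hfm, hfs]; ring
        · have hQe : T = 0 := by omega
          have h4 : a ω1 ≤ 2 := by rw [ha1, hQe]; omega
          rcases hsmall ω1 h4 with h5 | h5
          · exact Or.inl h5
          · exact Or.inr (Or.inl h5)
  · -- tame case
    push Not at hwild
    have hw := wild_card (U := U) (Q := 1) hU (fun x hx => absurd (hwild x) hx)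
    rw [hw] at hcount
    simp only [Nat.sub_self, mul_zero, add_zero] at hcount
    have hall : 2 * ∑ ω : R, a ω ≤ Fintype.card R * Nat.card H := by
      rw [Finset.mul_sum]
      calc _ ≤ ∑ ω : R, Nat.card H := Finset.sum_le_sum (fun ω _ => hhalf ω)
        _ = _ := by rw [Finset.sum_const, smul_eq_mul]; rfl
    have hr4 : Fintype.card R < 4 := by
      by_contra hcon
      push Not at hcon
      have h3 : 4 * Nat.card H ≤ Fintype.card R * Nat.card H := Nat.mul_le_mul_right _ hcon
      omega
    have hfinish : (∃ ω, a ω ≤ 2) → _ := fun ⟨ω, hω⟩ => hsmall ω hω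
    rw [← or_assoc]
    left
    apply hfinish
    rw [hcardR] at hcount hr4
    have hcases : (Finset.univ : Finset R).card = 0 ∨ (Finset.univ : Finset R).card = 1 ∨
        (Finset.univ : Finset R).card = 2 ∨ (Finset.univ : Finset R).card = 3 := by omega
    rcases hcases with hc | hc | hc | hc
    · exfalso
      have := Finset.card_eq_zero.1 hc
      rw [hc, this, Finset.sum_empty] at hcount
      omega
    · exfalso
      obtain ⟨ω, hω⟩ := Finset.card_eq_one.1 hc
      rw [hc, hω, Finset.sum_singleton] at hcount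
      have := hapos ω
      omega
    · obtain ⟨ω, ω', hne, hω⟩ := Finset.card_eq_two.1 hc
      rw [hc, hω, Finset.sum_pair hne] at hcount
      refine ⟨ω, ?_⟩
      omega
    · obtain ⟨ω, ω', ω'', hne, hne2, hne3, hω⟩ := Finset.card_eq_three.1 hc
      rw [hc, hω, Finset.sum_insert (by simp [hne, hne2]), Finset.sum_pair hne3] at hcount
      rcases arith_tame (hmul ω) (hmul ω') (hmul ω'') (hk2 ω) (hk2 ω') (hk2 ω'') (by omega) h60
        with h3 | h3 | h3
      · exact ⟨_, h3⟩
      · exact ⟨_, h3⟩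
      · exact ⟨_, h3⟩

end Pool.Agent.Lib.MP_e6ed9e_al.DIX88
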