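import Mathlib
import Pool.Agent.Lib.MP_e6ed9e_al.Defs

/-! # The radial vector on the anisotropic binary forms, q = 3 mod 4 (helper54) -/

namespace SpreadPerm.Rad54

open Finset

variable {F : Type} [Field F] [Fintype F] [DecidableEq F]

omit [Fintype F] [DecidableEq F] in
theorem char_ne_two (h : ¬ IsSquare (-1 : F)) : ringChar F ≠ 2 := by
  intro h2
  apply h
  have : CharP F 2 := by rw [← h2]; exact ringChar.charP F
  rw [CharTwo.neg_eq]
  exact ⟨1, by ring⟩

theorem chi_neg_one (h : ¬ IsSquare (-1 : F)) : quadraticChar F (-1) = -1 := by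
  rcases quadraticChar_dichotomy (F := F) (a := (-1 : F)) (by simp) with h1 | h1
  · exact absurd ((quadraticChar_one_iff_isSquare (by simp)).1 h1) h
  · exact h1

/-- the number of pairs with `y ^ 2 = b ^ 2 + m` -/
theorem count (h2 : ringChar F ≠ 2) (m : F) (hm : m ≠ 0) :
    (univ.filter fun p : F × F => p.2 ^ 2 = p.1 ^ 2 + m).card = Fintype.card F - 1 := by
  have h2' : (2 : F) ≠ 0 := Ring.two_ne_zero h2
  rw [← card_univ, ← card_erase_of_mem (mem_univ (0 : F))]
  refine card_bij' (fun p _ => p.2 - p.1) (fun u _ => ((m / u - u) / 2, (m / u + u) / 2))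
    ?_ ?_ ?_ ?_
  · rintro ⟨b, y⟩ h
    simp only [mem_filter, mem_univ, true_and] at h
    simp only [mem_erase, mem_univ, and_true]
    intro h0
    apply hm
    have : y = b := by linear_combination h0
    rw [this] at h
    linear_combination -h
  · intro u hu
    simp only [mem_erase, mem_univ, and_true] at hu
    simp only [mem_filter, mem_univ, true_and]
    field_simp
    ring
  · rintro ⟨b, y⟩ h
    simp only [mem_filter, mem_univ, true_and] at h
    have hne : y - b ≠ 0 := by
      intro h0
      apply hm
      have : y = b := by linear_combination h0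
      rw [this] at h
      linear_combination -h
    have hmm : m / (y - b) = y + b := by
      rw [div_eq_iff hne]
      linear_combination -h
    simp only [hmm]
    refine Prod.ext ?_ ?_
    · simp only
      field_simp
      ring
    · simp only
      field_simp
      ring
  · intro u _
    simp only
    rw [← sub_div, div_eq_iff h2']
    ring

theorem sum_chi (h2 : ringChar F ≠ 2) (m : F) (hm : m ≠ 0) :
    ∑ b : F, quadraticChar F (b ^ 2 + m) = -1 := by
  have hc := count h2 m hm
  have hq : 0 < Fintype.card F := Fintype.card_pos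
  have h1 : ((univ.filter fun p : F × F => p.2 ^ 2 = p.1 ^ 2 + m).card : ℤ)
      = ∑ b : F, (quadraticChar F (b ^ 2 + m) + 1) := by
    have hs : ∀ b : F, quadraticChar F (b ^ 2 + m) + 1
        = ((univ.filter fun y : F => y ^ 2 = b ^ 2 + m).card : ℤ) := by
      intro b
      rw [← quadraticChar_card_sqrts h2 (b ^ 2 + m)]
      congr 1
      congr 1
      ext y
      simp
    rw [sum_congr rfl fun b _ => hs b]
    rw [← Nat.cast_sum]
    congr 1
    rw [card_filter, ← univ_product_univ, sum_product]
    refine sum_congr rfl fun b _ => ?_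
    rw [card_filter]
  rw [sum_add_distrib, hc] at h1
  simp only [sum_const, card_univ, nsmul_eq_mul, mul_one] at h1
  have h3 : ((Fintype.card F - 1 : ℕ) : ℤ) = (Fintype.card F : ℤ) - 1 := by
    rw [Nat.cast_sub hq]; simp
  rw [h3] at h1
  linarith

theorem sum_chi_sq :
    ∑ b : F, quadraticChar F (b ^ 2) = (Fintype.card F : ℤ) - 1 := by
  have hq : 0 < Fintype.card F := Fintype.card_pos
  rw [← add_sum_erase _ _ (mem_univ (0 : F))]
  have h0 : quadraticChar F ((0 : F) ^ 2) = 0 := by simp
  rw [h0, zero_add]
  rw [sum_congr rfl (g := fun _ => (1 : ℤ))]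
  · rw [sum_const, card_erase_of_mem (mem_univ _), card_univ, nsmul_eq_mul, mul_one,
      Nat.cast_sub hq]
    simp
  · intro b hb
    exact quadraticChar_sq_one' (mem_erase.1 hb).1

/-- the sum over a horocycle at the first basis vector -/
theorem sum_horo (h : ¬ IsSquare (-1 : F)) (t : F) (ht : t ≠ 0) :
    ∑ b : F, (quadraticChar F (2 + (t + (1 + b ^ 2) / t))
      + quadraticChar F (2 - (t + (1 + b ^ 2) / t)))
      + (if t = 1 ∨ t = -1 then (Fintype.card F : ℤ) else 0) = 0 := by
  have h2 := char_ne_two h
  have h2' : (2 : F) ≠ 0 := Ring.two_ne_zero h2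
  have e1 : ∀ b : F, quadraticChar F (2 + (t + (1 + b ^ 2) / t))
      = quadraticChar F t * quadraticChar F (b ^ 2 + (1 + t) ^ 2) := by
    intro b
    have hx : (2 + (t + (1 + b ^ 2) / t)) * t ^ 2 = t * (b ^ 2 + (1 + t) ^ 2) := by
      field_simp
      ring
    have := congrArg (quadraticChar F) hx
    rw [map_mul, map_mul, quadraticChar_sq_one' ht, mul_one] at this
    exact this
  have e2 : ∀ b : F, quadraticChar F (2 - (t + (1 + b ^ 2) / t))
      = - (quadraticChar F t * quadraticChar F (b ^ 2 + (1 - t) ^ 2)) := by
    intro b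
    have hx : (2 - (t + (1 + b ^ 2) / t)) * t ^ 2 = (-1) * (t * (b ^ 2 + (1 - t) ^ 2)) := by
      field_simp
      ring
    have := congrArg (quadraticChar F) hx
    rw [map_mul, map_mul, map_mul, quadraticChar_sq_one' ht, mul_one, chi_neg_one h] at this
    rw [this]
    ring
  rw [sum_congr rfl fun b _ => by rw [e1 b, e2 b]]
  rw [sum_add_distrib, sum_neg_distrib, ← mul_sum, ← mul_sum]
  by_cases h1 : t = 1
  · subst h1
    have ha : ∑ b : F, quadraticChar F (b ^ 2 + (1 + 1) ^ 2) = -1 := by
      apply sum_chi h2
      have : (1 + 1 : F) = 2 := by norm_num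
      rw [this]
      exact pow_ne_zero 2 h2'
    have hb : ∑ b : F, quadraticChar F (b ^ 2 + (1 - 1) ^ 2) = (Fintype.card F : ℤ) - 1 := by
      rw [← sum_chi_sq (F := F)]
      refine sum_congr rfl fun b _ => ?_
      congr 1
      ring
    rw [ha, hb]
    simp only [MulChar.map_one, true_or, if_true]
    ring
  · by_cases h3 : t = -1
    · subst h3
      have ha : ∑ b : F, quadraticChar F (b ^ 2 + (1 + -1) ^ 2) = (Fintype.card F : ℤ) - 1 := by
        rw [← sum_chi_sq (F := F)]
        refine sum_congr rfl fun b _ => ?_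
        congr 1
        ring
      have hb : ∑ b : F, quadraticChar F (b ^ 2 + (1 - -1) ^ 2) = -1 := by
        apply sum_chi h2
        have : (1 - -1 : F) = 2 := by norm_num
        rw [this]
        exact pow_ne_zero 2 h2'
      rw [ha, hb, chi_neg_one h]
      simp only [or_true, if_true]
      ring
    · have ha : ∑ b : F, quadraticChar F (b ^ 2 + (1 + t) ^ 2) = -1 := by
        apply sum_chi h2
        apply pow_ne_zero 2
        intro h0
        exact h3 (by linear_combination h0)
      have hb : ∑ b : F, quadraticChar F (b ^ 2 + (1 - t) ^ 2) = -1 := by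
        apply sum_chi h2
        apply pow_ne_zero 2
        intro h0
        exact h1 (by linear_combination -h0)
      rw [ha, hb, if_neg (by tauto)]
      ring

end SpreadPerm.Rad54
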