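import Mathlib
import Pool.Agent.Lib.MP_e6ed9e_al.Defs
import Pool.Agent.Lib.MP_e6ed9e_al.Rad54

/-! # The radial vector on the anisotropic binary forms, q = 3 mod 4: geometry (helper54) -/

set_option linter.unusedSectionVars false

namespace SpreadPerm.Rad54

open Finset

variable {F : Type} [Field F] [Fintype F] [DecidableEq F]

/-- symmetric matrices `(a, b; b, c)` of determinant one -/
def Sym1 (F : Type) [Field F] : Type := {p : F × F × F // p.1 * p.2.2 - p.2.1 ^ 2 = 1}

instance : Fintype (Sym1 F) := inferInstanceAs (Fintype {_p : F × F × F // _})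
instance : DecidableEq (Sym1 F) := inferInstanceAs (DecidableEq {_p : F × F × F // _})

/-- the value of the form at `(x, y)` -/
def ev (S : Sym1 F) (x y : F) : F := S.1.1 * x ^ 2 + 2 * S.1.2.1 * x * y + S.1.2.2 * y ^ 2

/-- the trace -/
def tr (S : Sym1 F) : F := S.1.1 + S.1.2.2

/-- the negative -/
def ng (S : Sym1 F) : Sym1 F := ⟨(-S.1.1, -S.1.2.1, -S.1.2.2), by
  have := S.2
  simp only
  linear_combination this⟩

/-- the identity matrix -/
def one : Sym1 F := ⟨(1, 0, 1), by simp⟩

/-- twice the vector -/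
def w2 (S : Sym1 F) : ℤ :=
  quadraticChar F (2 + tr S) + quadraticChar F (2 - tr S) +
    (if S = one ∨ S = ng one then (Fintype.card F : ℤ) else 0)

theorem ng_ng (S : Sym1 F) : ng (ng S) = S := by
  apply Subtype.ext
  simp [ng]

theorem tr_ng (S : Sym1 F) : tr (ng S) = - tr S := by
  simp only [tr, ng]
  ring

theorem ev_ng (S : Sym1 F) (x y : F) : ev (ng S) x y = - ev S x y := by
  simp only [ev, ng]
  ring

theorem w2_ng (S : Sym1 F) : w2 (ng S) = w2 S := by
  have h1 : (ng S = one ∨ ng S = ng one) ↔ (S = one ∨ S = ng one) := by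
    constructor
    · rintro (h | h)
      · right; rw [← h, ng_ng]
      · left; rw [← ng_ng S, h, ng_ng]
    · rintro (h | h)
      · right; rw [h]
      · left; rw [h, ng_ng]
  simp only [w2, tr_ng, h1]
  ring_nf

/-- rotation by `(x, -y; y, x)` -/
def rot (x y : F) (hN : x ^ 2 + y ^ 2 ≠ 0) (S : Sym1 F) : Sym1 F :=
  ⟨((x ^ 2 * S.1.1 + 2 * x * y * S.1.2.1 + y ^ 2 * S.1.2.2) / (x ^ 2 + y ^ 2),
    (-(x * y) * S.1.1 + (x ^ 2 - y ^ 2) * S.1.2.1 + x * y * S.1.2.2) / (x ^ 2 + y ^ 2),
    (y ^ 2 * S.1.1 - 2 * x * y * S.1.2.1 + x ^ 2 * S.1.2.2) / (x ^ 2 + y ^ 2)), by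
    have h := S.2
    simp only
    rw [div_mul_div_comm, div_pow, ← pow_two, ← sub_div, div_eq_iff (pow_ne_zero 2 hN)]
    linear_combination (x ^ 2 + y ^ 2) ^ 2 * h⟩

theorem tr_rot (x y : F) (hN : x ^ 2 + y ^ 2 ≠ 0) (S : Sym1 F) : tr (rot x y hN S) = tr S := by
  simp only [tr, rot]
  rw [← add_div, div_eq_iff hN]
  ring

theorem fst_rot (x y : F) (hN : x ^ 2 + y ^ 2 ≠ 0) (S : Sym1 F) :
    (rot x y hN S).1.1 = ev S x y / (x ^ 2 + y ^ 2) := by
  simp only [ev, rot]
  congr 1
  ring

theorem neg_aux (x y : F) (hN : x ^ 2 + y ^ 2 ≠ 0) : x ^ 2 + (-y) ^ 2 ≠ 0 := by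
  rwa [neg_sq]

theorem rot_rot (x y : F) (hN : x ^ 2 + y ^ 2 ≠ 0) (S : Sym1 F) :
    rot x (-y) (neg_aux x y hN) (rot x y hN S) = S := by
  apply Subtype.ext
  simp only [rot]
  refine Prod.ext ?_ (Prod.ext ?_ ?_)
  · simp only [neg_sq]
    field_simp
    ring
  · simp only [neg_sq]
    field_simp
    ring
  · simp only [neg_sq]
    field_simp
    ring

theorem rot_rot' (x y : F) (hN : x ^ 2 + y ^ 2 ≠ 0) (S : Sym1 F) :
    rot x y hN (rot x (-y) (neg_aux x y hN) S) = S := by
  have h := rot_rot x (-y) (neg_aux x y hN) S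
  simp only [neg_neg] at h
  exact h

/-- rotation as a permutation -/
def rotE (x y : F) (hN : x ^ 2 + y ^ 2 ≠ 0) : Sym1 F ≃ Sym1 F where
  toFun := rot x y hN
  invFun := rot x (-y) (neg_aux x y hN)
  left_inv := rot_rot x y hN
  right_inv := rot_rot' x y hN

theorem rot_one (x y : F) (hN : x ^ 2 + y ^ 2 ≠ 0) : rot x y hN one = one := by
  apply Subtype.ext
  simp only [rot, one]
  refine Prod.ext ?_ (Prod.ext ?_ ?_)
  · simp only
    rw [div_eq_iff hN]
    ring
  · simp only
    rw [div_eq_iff hN]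
    ring
  · simp only
    rw [div_eq_iff hN]
    ring

theorem rot_ng (x y : F) (hN : x ^ 2 + y ^ 2 ≠ 0) (S : Sym1 F) :
    rot x y hN (ng S) = ng (rot x y hN S) := by
  apply Subtype.ext
  simp only [rot, ng]
  refine Prod.ext ?_ (Prod.ext ?_ ?_)
  · simp only
    rw [← neg_div]
    congr 1
    ring
  · simp only
    rw [← neg_div]
    congr 1
    ring
  · simp only
    rw [← neg_div]
    congr 1
    ring

theorem w2_rot (x y : F) (hN : x ^ 2 + y ^ 2 ≠ 0) (S : Sym1 F) : w2 (rot x y hN S) = w2 S := by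
  have h1 : (rot x y hN S = one ∨ rot x y hN S = ng one) ↔ (S = one ∨ S = ng one) := by
    constructor
    · rintro (h | h)
      · left
        apply (rotE x y hN).injective
        simp only [rotE, Equiv.coe_fn_mk]
        rw [h, rot_one]
      · right
        apply (rotE x y hN).injective
        simp only [rotE, Equiv.coe_fn_mk]
        rw [h, rot_ng, rot_one]
    · rintro (h | h)
      · left; rw [h, rot_one]
      · right; rw [h, rot_ng, rot_one]
  simp only [w2, tr_rot, h1]

/-- the matrix with first entry `t` -/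
def mk (t b : F) (ht : t ≠ 0) : Sym1 F := ⟨(t, b, (1 + b ^ 2) / t), by
  simp only
  field_simp
  ring⟩

theorem norm_ne (h : ¬ IsSquare (-1 : F)) (x y : F) (hxy : x ≠ 0 ∨ y ≠ 0) :
    x ^ 2 + y ^ 2 ≠ 0 := by
  intro h0
  apply h
  by_cases hy : y = 0
  · subst hy
    rcases hxy with h1 | h1
    · exfalso
      apply h1
      simpa using h0
    · exact absurd rfl h1
  · refine ⟨x / y, ?_⟩
    field_simp
    linear_combination -h0

theorem fst_ne (h : ¬ IsSquare (-1 : F)) (S : Sym1 F) : S.1.1 ≠ 0 := by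
  intro h0
  apply h
  have := S.2
  rw [h0] at this
  exact ⟨S.1.2.1, by linear_combination this⟩

theorem sum_fst (t : F) (ht : t ≠ 0) (f : Sym1 F → ℤ) :
    ∑ S ∈ univ.filter (fun S : Sym1 F => S.1.1 = t), f S = ∑ b : F, f (mk t b ht) := by
  symm
  refine sum_bij' (fun b _ => mk t b ht) (fun S _ => S.1.2.1) ?_ ?_ ?_ ?_ ?_
  · intro b _
    simp [mk]
  · intro S _
    simp
  · intro b _
    simp [mk]
  · intro S hS
    simp only [mem_filter, mem_univ, true_and] at hS
    apply Subtype.ext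
    simp only [mk]
    refine Prod.ext hS.symm (Prod.ext rfl ?_)
    have := S.2
    simp only
    rw [div_eq_iff ht, ← hS]
    linear_combination -this
  · intro b _
    rfl

theorem sum_w2_fst (h : ¬ IsSquare (-1 : F)) (t : F) (ht : t ≠ 0) :
    ∑ S ∈ univ.filter (fun S : Sym1 F => S.1.1 = t), w2 S = 0 := by
  rw [sum_fst t ht, ← sum_horo h t ht]
  simp only [w2]
  rw [sum_add_distrib]
  congr 1
  have key : ∀ b : F, (mk t b ht = one ∨ mk t b ht = ng one) ↔ (b = 0 ∧ (t = 1 ∨ t = -1)) := by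
    intro b
    constructor
    · rintro (h1 | h1)
      · have := congrArg (fun S : Sym1 F => (S.1.1, S.1.2.1)) h1
        simp only [mk, one, Prod.mk.injEq] at this
        exact ⟨this.2, Or.inl this.1⟩
      · have := congrArg (fun S : Sym1 F => (S.1.1, S.1.2.1)) h1
        simp only [mk, one, ng, Prod.mk.injEq] at this
        exact ⟨by simpa using this.2, Or.inr this.1⟩
    · rintro ⟨rfl, h1 | h1⟩
      · left
        apply Subtype.ext
        simp [mk, one, h1]
      · right
        apply Subtype.ext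
        simp [mk, one, ng, h1]
  simp only [key]
  by_cases h1 : t = 1 ∨ t = -1
  · simp [h1]
  · simp [h1]

/-- **the sums over the horocycles vanish** -/
theorem sum_w2 (h : ¬ IsSquare (-1 : F)) (x y : F) (hxy : x ≠ 0 ∨ y ≠ 0) (s : F) (hs : s ≠ 0) :
    ∑ S ∈ univ.filter (fun S : Sym1 F => ev S x y = s), w2 S = 0 := by
  have hN := norm_ne h x y hxy
  rw [← sum_w2_fst h (s / (x ^ 2 + y ^ 2)) (div_ne_zero hs hN)]
  refine sum_equiv (rotE x y hN) ?_ ?_
  · intro S
    simp only [mem_filter, mem_univ, true_and]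
    simp only [rotE, Equiv.coe_fn_mk]
    rw [fst_rot, div_left_inj' hN]
  · intro S _
    simp only [rotE, Equiv.coe_fn_mk]
    rw [w2_rot]

theorem sum_w2_all (h : ¬ IsSquare (-1 : F)) : ∑ S : Sym1 F, w2 S = 0 := by
  rw [← sum_fiberwise univ (fun S : Sym1 F => S.1.1) w2]
  apply sum_eq_zero
  intro t _
  by_cases ht : t = 0
  · apply sum_eq_zero
    intro S hS
    simp only [mem_filter, mem_univ, true_and] at hS
    exact absurd (hS.trans ht) (fst_ne h S)
  · exact sum_w2_fst h t ht

theorem ne_ng (h : ¬ IsSquare (-1 : F)) (S : Sym1 F) : ng S ≠ S := by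
  intro h0
  have h2' : (2 : F) ≠ 0 := Ring.two_ne_zero (char_ne_two h)
  have := congrArg (fun S : Sym1 F => S.1.1) h0
  simp only [ng] at this
  have h3 : 2 * S.1.1 = 0 := by linear_combination -this
  rcases mul_eq_zero.1 h3 with h4 | h4
  · exact h2' h4
  · exact fst_ne h S h4

/-- trace `2` only at the identity -/
theorem eq_one_of_tr (h : ¬ IsSquare (-1 : F)) (S : Sym1 F) (ht : tr S = 2) : S = one := by
  have h2' : (2 : F) ≠ 0 := Ring.two_ne_zero (char_ne_two h)
  have hd := S.2
  simp only [tr] at ht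
  have e : (S.1.1 - S.1.2.2) ^ 2 + (2 * S.1.2.1) ^ 2 = 0 := by
    linear_combination (S.1.1 + S.1.2.2 + 2) * ht - 4 * hd
  have h1 : S.1.1 - S.1.2.2 = 0 ∧ 2 * S.1.2.1 = 0 := by
    by_contra hc
    apply norm_ne h _ _ _ e
    by_contra h3
    push Not at h3
    exact hc h3
  have hb : S.1.2.1 = 0 := by
    rcases mul_eq_zero.1 h1.2 with h3 | h3
    · exact absurd h3 h2'
    · exact h3
  have ha : S.1.1 = 1 := by
    have : 2 * (S.1.1 - 1) = 0 := by linear_combination ht + h1.1
    rcases mul_eq_zero.1 this with h3 | h3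
    · exact absurd h3 h2'
    · linear_combination h3
  have hc : S.1.2.2 = 1 := by linear_combination ha - h1.1
  apply Subtype.ext
  refine Prod.ext ha (Prod.ext hb hc)

theorem card_odd (h : ¬ IsSquare (-1 : F)) : ∃ k : ℤ, (Fintype.card F : ℤ) = 2 * k + 1 := by
  have h2 := char_ne_two h
  have := FiniteField.odd_card_of_char_ne_two h2
  refine ⟨(Fintype.card F / 2 : ℕ), ?_⟩
  omega

theorem w2_one (h : ¬ IsSquare (-1 : F)) : w2 (one : Sym1 F) = 1 + (Fintype.card F : ℤ) := by
  have h2' : (2 : F) ≠ 0 := Ring.two_ne_zero (char_ne_two h)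
  have e1 : (2 + tr (one : Sym1 F)) = 2 ^ 2 := by simp only [tr, one]; norm_num
  have e2 : (2 - tr (one : Sym1 F)) = 0 := by simp only [tr, one]; norm_num
  simp only [w2, e1, e2, quadraticChar_sq_one' h2', MulChar.map_zero, true_or, if_true, add_zero]

theorem w2_even (h : ¬ IsSquare (-1 : F)) (S : Sym1 F) : ∃ v : ℤ, w2 S = 2 * v ∧ -1 ≤ v := by
  obtain ⟨k, hk⟩ := card_odd h
  have hq : (0 : ℤ) ≤ Fintype.card F := Nat.cast_nonneg _
  by_cases hS : S = one ∨ S = ng one
  · have : w2 S = 1 + (Fintype.card F : ℤ) := by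
      rcases hS with h1 | h1
      · rw [h1, w2_one h]
      · rw [h1, w2_ng, w2_one h]
    refine ⟨k + 1, ?_, ?_⟩
    · rw [this, hk]; ring
    · omega
  · have ha : 2 + tr S ≠ 0 := by
      intro h0
      apply hS
      right
      have : ng S = one := by
        apply eq_one_of_tr h
        rw [tr_ng]
        linear_combination -h0
      rw [← this, ng_ng]
    have hb : 2 - tr S ≠ 0 := by
      intro h0
      apply hS
      left
      apply eq_one_of_tr h
      linear_combination -h0
    simp only [w2, if_neg hS, add_zero]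
    rcases quadraticChar_dichotomy ha with h1 | h1 <;>
      rcases quadraticChar_dichotomy hb with h3 | h3 <;> rw [h1, h3]
    · exact ⟨1, by norm_num, by norm_num⟩
    · exact ⟨0, by norm_num, by norm_num⟩
    · exact ⟨0, by norm_num, by norm_num⟩
    · exact ⟨-1, by norm_num, by norm_num⟩

/-- `1 + v` as a natural number -/
noncomputable def av (S : Sym1 F) : ℕ := (1 + w2 S / 2).toNat

theorem av_spec (h : ¬ IsSquare (-1 : F)) (S : Sym1 F) : 2 * (av S : ℤ) = 2 + w2 S := by
  obtain ⟨v, hv, hv1⟩ := w2_even h S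
  have : w2 S / 2 = v := by rw [hv]; simp
  simp only [av, this]
  rw [Int.toNat_of_nonneg (by omega), hv]
  ring

theorem av_ng (S : Sym1 F) : av (ng S) = av S := by
  simp only [av, w2_ng]

theorem card_fst (t : F) (ht : t ≠ 0) :
    (univ.filter (fun S : Sym1 F => S.1.1 = t)).card = Fintype.card F := by
  have := sum_fst t ht (fun _ => (1 : ℤ))
  simp only [sum_const, nsmul_eq_mul, mul_one, card_univ] at this
  exact_mod_cast this

theorem card_ev (h : ¬ IsSquare (-1 : F)) (x y : F) (hxy : x ≠ 0 ∨ y ≠ 0) (s : F) (hs : s ≠ 0) :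
    (univ.filter (fun S : Sym1 F => ev S x y = s)).card = Fintype.card F := by
  have hN := norm_ne h x y hxy
  rw [← card_fst (s / (x ^ 2 + y ^ 2)) (div_ne_zero hs hN)]
  refine card_bij (fun S _ => rotE x y hN S) ?_ ?_ ?_
  · intro S hS
    simp only [mem_filter, mem_univ, true_and] at hS ⊢
    simp only [rotE, Equiv.coe_fn_mk]
    rw [fst_rot, hS]
  · intro S _ T _ hST
    exact (rotE x y hN).injective hST
  · intro T hT
    simp only [mem_filter, mem_univ, true_and] at hT
    refine ⟨(rotE x y hN).symm T, ?_, by simp⟩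
    simp only [mem_filter, mem_univ, true_and]
    have h1 : rot x y hN ((rotE x y hN).symm T) = T := (rotE x y hN).apply_symm_apply T
    have h2 := fst_rot x y hN ((rotE x y hN).symm T)
    rw [h1, hT, div_left_inj' hN] at h2
    exact h2.symm

theorem sum_av (h : ¬ IsSquare (-1 : F)) (x y : F) (hxy : x ≠ 0 ∨ y ≠ 0) (s : F) (hs : s ≠ 0) :
    ∑ S ∈ univ.filter (fun S : Sym1 F => ev S x y = s), av S = Fintype.card F := by
  have h1 : (2 : ℤ) * ((∑ S ∈ univ.filter (fun S : Sym1 F => ev S x y = s), av S : ℕ) : ℤ)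
      = 2 * Fintype.card F := by
    push_cast
    rw [mul_sum, sum_congr rfl fun S _ => av_spec h S, sum_add_distrib, sum_w2 h x y hxy s hs,
      sum_const, card_ev h x y hxy s hs, nsmul_eq_mul]
    ring
  have h2 := mul_left_cancel₀ (by norm_num : (2 : ℤ) ≠ 0) h1
  exact_mod_cast h2

theorem sum_av_all (h : ¬ IsSquare (-1 : F)) :
    ∑ S : Sym1 F, av S = Fintype.card (Sym1 F) := by
  have h1 : (2 : ℤ) * ((∑ S : Sym1 F, av S : ℕ) : ℤ) = 2 * Fintype.card (Sym1 F) := by
    push_cast
    rw [mul_sum, sum_congr rfl fun S _ => av_spec h S, sum_add_distrib, sum_w2_all h,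
      sum_const, card_univ, nsmul_eq_mul]
    ring
  have h2 := mul_left_cancel₀ (by norm_num : (2 : ℤ) ≠ 0) h1
  exact_mod_cast h2

end SpreadPerm.Rad54
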