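import Mathlib
import Pool.Agent.Lib.MP_e6ed9e_al.Defs
import Pool.Agent.Lib.MP_e6ed9e_al.Rad54b

/-! # The radial vector, q = 3 mod 4: the groups are non-spreading (helper54) -/

set_option linter.unusedSectionVars false

namespace SpreadPerm.Rad54

open Finset

variable {F : Type} [Field F] [Fintype F] [DecidableEq F]

/-- Let `Ω` be the set of symmetric matrices of determinant one up to sign, in any model `π`.
If each element of `G` maps the horocycle of the matrices with first entry `1` or `-1` to a
horocycle, then `G` is non-spreading. -/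
theorem nonSpreading_of_model (h : ¬ IsSquare (-1 : F)) (hq : 3 < Fintype.card F)
    {Ω : Type*} [Fintype Ω] (π : Sym1 F → Ω) (hs : Function.Surjective π)
    (hπ : ∀ S T, π S = π T ↔ T = S ∨ T = ng S)
    (G : Type*) [Group G] [MulAction G Ω]
    (hG : ∀ g : G, ∃ x y s : F, (x ≠ 0 ∨ y ≠ 0) ∧ s ≠ 0 ∧ ∀ S T : Sym1 F, π T = g • π S →
      ((S.1.1 = 1 ∨ S.1.1 = -1) ↔ (ev T x y = s ∨ ev T x y = -s))) :
    NonSpreading G Ω := by
  classical
  have h2' : (2 : F) ≠ 0 := Ring.two_ne_zero (char_ne_two h)
  have hpn : ∀ S, π (ng S) = π S := fun S => ((hπ S (ng S)).2 (Or.inr rfl)).symm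
  let r : Ω → Sym1 F := Function.surjInv hs
  have hr : ∀ ω, π (r ω) = ω := Function.surjInv_eq hs
  let A : Ω → ℕ := fun ω => av (r ω)
  have hA : ∀ S, A (π S) = av S := by
    intro S
    have h1 := (hπ S (r (π S))).1 (hr (π S)).symm
    rcases h1 with h1 | h1
    · simp only [A]; rw [h1]
    · simp only [A]; rw [h1, av_ng]
  let B : Ω → ℕ := fun ω => if ∃ S, π S = ω ∧ S.1.1 = 1 then 1 else 0
  -- the transfer of sums over horocycles
  have key : ∀ x y s : F, (x ≠ 0 ∨ y ≠ 0) → s ≠ 0 →
      ∑ ω ∈ univ.filter (fun ω : Ω => ∃ T, π T = ω ∧ ev T x y = s), A ω = Fintype.card F := by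
    intro x y s hxy hs0
    rw [← sum_av h x y hxy s hs0]
    symm
    refine sum_bij (fun T _ => π T) ?_ ?_ ?_ ?_
    · intro T hT
      simp only [mem_filter, mem_univ, true_and] at hT ⊢
      exact ⟨T, rfl, hT⟩
    · intro T hT T' hT' e
      simp only [mem_filter, mem_univ, true_and] at hT hT'
      rcases (hπ T T').1 e with h1 | h1
      · exact h1.symm
      · exfalso
        rw [h1, ev_ng, hT] at hT'
        have : 2 * s = 0 := by linear_combination -hT'
        rcases mul_eq_zero.1 this with h3 | h3
        · exact h2' h3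
        · exact hs0 h3
    · intro ω hω
      simp only [mem_filter, mem_univ, true_and] at hω
      obtain ⟨T, hT, hT'⟩ := hω
      exact ⟨T, by simpa using hT', hT⟩
    · intro T _
      exact (hA T).symm
  -- an element different from `0, 1, -1`
  obtain ⟨t, ht0, ht1, htm⟩ : ∃ t : F, t ≠ 0 ∧ t ≠ 1 ∧ t ≠ -1 := by
    by_contra hc
    push Not at hc
    have hsub : (univ : Finset F) ⊆ {0, 1, -1} := by
      intro t _
      simp only [mem_insert, mem_singleton]
      by_cases h0 : t = 0
      · exact Or.inl h0
      · by_cases h1 : t = 1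
        · exact Or.inr (Or.inl h1)
        · exact Or.inr (Or.inr (hc t h0 h1))
    have := card_le_card hsub
    rw [card_univ] at this
    have h3 : ({0, 1, -1} : Finset F).card ≤ 3 := card_le_three
    omega
  have hev : ∀ S : Sym1 F, ev S 1 0 = S.1.1 := by
    intro S
    simp only [ev]
    ring
  have hcard : ∑ ω, A ω = Fintype.card Ω := by
    have h1 : ∑ S : Sym1 F, av S = ∑ ω : Ω, ∑ S ∈ univ.filter (fun S => π S = ω), av S :=
      (sum_fiberwise univ π av).symm
    have hfib : ∀ ω : Ω, univ.filter (fun S => π S = ω) = {r ω, ng (r ω)} := by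
      intro ω
      ext S
      simp only [mem_filter, mem_univ, true_and, mem_insert, mem_singleton]
      constructor
      · intro hS
        exact (hπ (r ω) S).1 ((hr ω).trans hS.symm)
      · rintro (h3 | h3)
        · rw [h3, hr]
        · rw [h3, hpn, hr]
    have h2 : ∀ ω : Ω, ∑ S ∈ univ.filter (fun S => π S = ω), av S = 2 * A ω := by
      intro ω
      rw [hfib, sum_pair (ne_ng h (r ω)).symm, av_ng]
      simp only [A]
      ring
    have h3 : Fintype.card (Sym1 F) = 2 * Fintype.card Ω := by
      have h4 : ∑ S : Sym1 F, 1 = ∑ ω : Ω, ∑ S ∈ univ.filter (fun S => π S = ω), 1 :=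
        (sum_fiberwise univ π (fun _ => 1)).symm
      have h5 : ∀ ω : Ω, ∑ S ∈ univ.filter (fun S => π S = ω), 1 = 2 := by
        intro ω
        rw [hfib, sum_pair (ne_ng h (r ω)).symm]
      rw [sum_congr rfl fun ω _ => h5 ω] at h4
      simp only [sum_const, card_univ, smul_eq_mul, mul_one] at h4
      rw [h4]
      ring
    rw [sum_congr rfl fun ω _ => h2 ω, ← mul_sum, sum_av_all h, h3] at h1
    omega
  have hAone : A (π one) ≠ 1 := by
    rw [hA]
    intro h0
    have h1 := av_spec h (one : Sym1 F)
    rw [h0, w2_one h] at h1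
    have : (0 : ℤ) ≤ Fintype.card F := Nat.cast_nonneg _
    push_cast at h1
    omega
  refine ⟨A, B, Fintype.card F, Fintype.card_pos, ?_, ?_, ?_, ?_, ?_⟩
  · rintro (⟨c, hc⟩ | ⟨i, hi⟩)
    · have : c = 1 := by
        simp only [hc, sum_const, card_univ, smul_eq_mul] at hcard
        have hp : 0 < Fintype.card Ω := Fintype.card_pos_iff.2 ⟨π one⟩
        exact Nat.eq_of_mul_eq_mul_left hp (by rw [hcard, mul_one])
      exact hAone (by rw [hc, this])
    · have hi1 : π one = i := by
        rw [← hi]
        rw [hA]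
        intro h0
        have h1 := av_spec h (one : Sym1 F)
        rw [h0, w2_one h] at h1
        have : (0 : ℤ) ≤ Fintype.card F := Nat.cast_nonneg _
        push_cast at h1
        omega
      have h3 := key 1 0 t (Or.inl one_ne_zero) ht0
      rw [sum_eq_zero] at h3
      · have : 0 < Fintype.card F := Fintype.card_pos
        omega
      · intro ω hω
        simp only [mem_filter, mem_univ, true_and] at hω
        obtain ⟨T, hT, hT'⟩ := hω
        by_contra hne
        have h4 := (hi ω).1 hne
        rw [← hT, ← hi1] at h4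
        rw [hev] at hT'
        rcases (hπ T one).1 h4 with h5 | h5
        · rw [← h5] at hT'
          exact ht1 hT'.symm
        · have h6 : T = ng one := by rw [h5, ng_ng]
          rw [h6] at hT'
          exact htm hT'.symm
  · rintro (⟨c, hc⟩ | ⟨i, hi⟩)
    · have h1 : B (π one) = 1 := by
        simp only [B]
        rw [if_pos ⟨one, rfl, rfl⟩]
      have h3 : B (π (mk t 0 ht0)) = 0 := by
        simp only [B]
        rw [if_neg]
        rintro ⟨S, hS, hS1⟩
        rcases (hπ S _).1 hS with h4 | h4
        · have := congrArg (fun S : Sym1 F => S.1.1) h4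
          simp only [mk] at this
          exact ht1 (this.trans hS1)
        · have := congrArg (fun S : Sym1 F => S.1.1) h4
          simp only [mk, ng] at this
          apply htm
          rw [this, hS1]
      rw [hc] at h1 h3
      omega
    · have h1 : ∀ b : F, π (mk 1 b one_ne_zero) = i := by
        intro b
        rw [← hi]
        simp only [B]
        rw [if_pos ⟨_, rfl, rfl⟩]
        exact one_ne_zero
      have h3 := (h1 0).trans (h1 1).symm
      rcases (hπ _ _).1 h3 with h4 | h4
      · have := congrArg (fun S : Sym1 F => S.1.2.1) h4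
        simp only [mk] at this
        exact one_ne_zero this
      · have := congrArg (fun S : Sym1 F => S.1.1) h4
        simp only [mk, ng] at this
        exact h2' (by linear_combination this)
  · intro g
    obtain ⟨x, y, s, hxy, hs0, hg⟩ := hG g
    rw [← key x y s hxy hs0, sum_filter]
    refine sum_congr rfl fun ω _ => ?_
    have hiff : (∃ S, π S = g⁻¹ • ω ∧ S.1.1 = 1) ↔ (∃ T, π T = ω ∧ ev T x y = s) := by
      constructor
      · rintro ⟨S, hS, hS1⟩
        obtain ⟨T, hT⟩ := hs ω
        have hTS : π T = g • π S := by rw [hS, smul_inv_smul, hT]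
        rcases (hg S T hTS).1 (Or.inl hS1) with h3 | h3
        · exact ⟨T, hT, h3⟩
        · exact ⟨ng T, by rw [hpn, hT], by rw [ev_ng, h3, neg_neg]⟩
      · rintro ⟨T, hT, hTs⟩
        obtain ⟨S, hS⟩ := hs (g⁻¹ • ω)
        have hTS : π T = g • π S := by rw [hS, smul_inv_smul, hT]
        rcases (hg S T hTS).2 (Or.inl hTs) with h3 | h3
        · exact ⟨S, hS, h3⟩
        · exact ⟨ng S, by rw [hpn, hS], by simp only [ng]; rw [h3, neg_neg]⟩
    by_cases hω : ∃ T, π T = ω ∧ ev T x y = s
    · simp only [B]
      rw [if_pos (hiff.2 hω), if_pos hω, mul_one]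
    · simp only [B]
      rw [if_neg (fun h3 => hω (hiff.1 h3)), if_neg hω, mul_zero]
  · intro ω
    simp only [B]
    by_cases h1 : ∃ S, π S = ω ∧ S.1.1 = 1
    · right; rw [if_pos h1]
    · left; rw [if_neg h1]
  · rw [hcard]

end SpreadPerm.Rad54
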