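import Pool.Agent.Lib.MP_e6ed9e_al.Defs

/-!
The pigeonhole argument: a nontrivial set that generates a submodule of small dimension makes the
group non-spreading.
-/

namespace SpreadPerm

open Finset

variable {G : Type*} [Group G] {Ω : Type*} [Fintype Ω] [MulAction G Ω]

omit [Fintype Ω] in
lemma vec_apply (S : Set Ω) (g : G) (i : Ω) [Decidable (g⁻¹ • i ∈ S)] :
    vec S g i = if g⁻¹ • i ∈ S then 1 else 0 := by
  classical
  simp only [vec, Function.comp_apply, Set.indicator_apply]
  split_ifs <;> simp

omit [Fintype Ω] in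
/-- The sum of all translates is a positive multiple of the constant vector. -/
lemma one_mem_gen [Finite G] [MulAction.IsPretransitive G Ω] (S : Set Ω) (hS : S.Nonempty) :
    (1 : Ω → ℚ) ∈ gen G S := by
  classical
  have := Fintype.ofFinite G
  obtain ⟨s, hs⟩ := hS
  -- the sum of all translates
  set f : Ω → ℚ := ∑ g : G, vec S g with hf
  have hfm : f ∈ gen G S := Submodule.sum_mem _ fun g _ => Submodule.subset_span ⟨g, rfl⟩
  have hval : ∀ i, f i = ((Finset.univ.filter fun g : G => g⁻¹ • i ∈ S).card : ℚ) := by
    intro i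
    rw [hf, Finset.sum_apply, Finset.card_filter]
    push_cast
    exact Finset.sum_congr rfl fun g _ => by rw [vec_apply]
  have hconst : ∀ i, f i = f s := by
    intro i
    obtain ⟨h, rfl⟩ := MulAction.exists_smul_eq G s i
    rw [hval, hval]
    congr 1
    refine Finset.card_bij' (fun g _ => h⁻¹ * g) (fun g _ => h * g) ?_ ?_ ?_ ?_
    · intro g hg
      simp only [Finset.mem_filter, Finset.mem_univ, true_and] at hg ⊢
      rw [mul_inv_rev, inv_inv, mul_smul]
      exact hg
    · intro g hg
      simp only [Finset.mem_filter, Finset.mem_univ, true_and] at hg ⊢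
      rw [mul_inv_rev, mul_smul, inv_smul_smul]
      exact hg
    · intro g _; simp
    · intro g _; simp
  have hpos : 0 < f s := by
    rw [hval]
    have : (1 : G) ∈ Finset.univ.filter fun g : G => g⁻¹ • s ∈ S := by simp [hs]
    exact_mod_cast Finset.card_pos.2 ⟨1, this⟩
  have heq : (1 : Ω → ℚ) = (f s)⁻¹ • f := by
    funext i
    simp only [Pi.one_apply, Pi.smul_apply, smul_eq_mul]
    rw [hconst i, inv_mul_cancel₀ hpos.ne']
  rw [heq]
  exact Submodule.smul_mem _ _ hfm

/-- The pairing of a vector with an integer vector, as a linear functional. -/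
noncomputable def pair (v : Ω → ℚ) : (Ω → ℚ) →ₗ[ℚ] ℚ where
  toFun f := ∑ i, f i * v i
  map_add' f f' := by simp [add_mul, Finset.sum_add_distrib]
  map_smul' c f := by simp [Finset.mul_sum, mul_assoc]

/-- **The dimension criterion.** -/
theorem nonspreading_of_small [Finite G] [MulAction.IsPretransitive G Ω] (S : Finset Ω)
    (h1 : 1 < S.card) (h2 : S.card < Fintype.card Ω)
    (hd : (S.card + 1) ^ Module.finrank ℚ (gen G (S : Set Ω)) < 2 ^ Fintype.card Ω) :
    NonSpreading G Ω := by
  classical
  -- a basis made of translates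
  obtain ⟨b, hbs, hbspan, hbind⟩ := exists_linearIndependent ℚ (Set.range (vec (G := G) (S : Set Ω)))
  have hbfin : b.Finite := hbind.setFinite
  have := hbfin.fintype
  have hbcard : Fintype.card b = Module.finrank ℚ (gen G (S : Set Ω)) := by
    have := finrank_span_set_eq_card hbind
    rw [Set.toFinset_card] at this
    rw [← this, hbspan]
    rfl
  have hbs' : ∀ f : Ω → ℚ, f ∈ b → ∃ g : G, vec (S : Set Ω) g = f := fun f hf => hbs hf
  choose! gg hgg using hbs'
  -- the intersection numbers
  let φ : Finset Ω → (b → Fin (S.card + 1)) := fun A f =>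
    ⟨(A.filter fun i => (gg f.1)⁻¹ • i ∈ S).card, by
      refine Nat.lt_succ_of_le ?_
      refine Finset.card_le_card_of_injOn (fun i => (gg f.1)⁻¹ • i) ?_ ?_
      · intro i hi
        simp only [Finset.coe_filter, Set.mem_ofPred_eq] at hi
        exact hi.2
      · intro i _ j _ hij
        exact MulAction.injective _ hij⟩
  have hcard : Fintype.card (b → Fin (S.card + 1)) < Fintype.card (Finset Ω) := by
    rw [Fintype.card_fun, Fintype.card_fin, Fintype.card_finset, hbcard]
    exact hd
  obtain ⟨A1, A2, hne, heq⟩ := Fintype.exists_ne_map_eq_of_card_lt φ hcard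
  -- the difference vector
  set v : Ω → ℚ := fun i => (if i ∈ A1 then 1 else 0) - (if i ∈ A2 then 1 else 0) with hv
  have hb0 : ∀ f ∈ b, pair v f = 0 := by
    intro f hf
    have h := congrFun heq ⟨f, hf⟩
    simp only [φ, Fin.mk.injEq] at h
    have hA : ∀ A : Finset Ω, (∑ i, f i * (if i ∈ A then (1 : ℚ) else 0)) =
        ((A.filter fun i => (gg f)⁻¹ • i ∈ S).card : ℚ) := by
      intro A
      rw [Finset.card_filter]
      push_cast
      rw [← Finset.sum_subset (Finset.subset_univ A)]
      · refine Finset.sum_congr rfl fun i hi => ?_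
        rw [if_pos hi, mul_one]
        conv_lhs => rw [← hgg f hf]
        rw [vec_apply]
        simp only [Finset.mem_coe]
      · intro i _ hi
        rw [if_neg hi, mul_zero]
    show ∑ i, f i * v i = 0
    simp only [hv, mul_sub, Finset.sum_sub_distrib]
    rw [hA, hA, h, sub_self]
  have hall : ∀ f ∈ gen G (S : Set Ω), pair v f = 0 := by
    intro f hf
    have hf' : f ∈ Submodule.span ℚ b := by rw [hbspan]; exact hf
    have : Submodule.span ℚ b ≤ LinearMap.ker (pair v) :=
      Submodule.span_le.2 fun x hx => LinearMap.mem_ker.2 (hb0 x hx)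
    exact LinearMap.mem_ker.1 (this hf')
  have hSne : (S : Set Ω).Nonempty := by
    rw [Finset.coe_nonempty, ← Finset.card_pos]; omega
  have hsum : ∑ i, v i = 0 := by
    have := hall 1 (one_mem_gen _ hSne)
    simpa [pair] using this
  -- the multiset
  let A : Ω → ℕ := fun i => (1 + (if i ∈ A1 then 1 else 0)) - (if i ∈ A2 then 1 else 0)
  have hAv : ∀ i, (A i : ℚ) = 1 + v i := by
    intro i
    simp only [A, hv]
    split_ifs <;> norm_num
  have hAtot : ∑ i, A i = Fintype.card Ω := by
    have : ((∑ i, A i : ℕ) : ℚ) = (Fintype.card Ω : ℚ) := by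
      push_cast
      simp only [hAv, Finset.sum_add_distrib, hsum]
      simp
    exact_mod_cast this
  have hAle : ∀ i, A i ≤ 2 := by
    intro i
    simp only [A]
    split_ifs <;> omega
  let B : Ω → ℕ := fun i => if i ∈ S then 1 else 0
  have hAB : ∀ g : G, ∑ i, A i * B (g⁻¹ • i) = S.card := by
    intro g
    have h0 := hall (vec (S : Set Ω) g) (Submodule.subset_span ⟨g, rfl⟩)
    have hBq : ∀ i, ((B (g⁻¹ • i) : ℕ) : ℚ) = vec (S : Set Ω) g i := by
      intro i
      rw [vec_apply]
      simp only [B, Finset.mem_coe]
      split_ifs <;> simp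
    have h1' : ∑ i, B (g⁻¹ • i) = S.card := by
      simp only [B]
      rw [← Finset.card_filter]
      refine Finset.card_bij' (fun i _ => g⁻¹ • i) (fun i _ => g • i) ?_ ?_ ?_ ?_
      · intro i hi
        simpa using hi
      · intro i hi
        simpa using hi
      · intro i _; simp
      · intro i _; simp
    have : ((∑ i, A i * B (g⁻¹ • i) : ℕ) : ℚ) = (S.card : ℚ) := by
      rw [← h1']
      push_cast
      have : ∀ i, (A i : ℚ) * (B (g⁻¹ • i) : ℚ) =
          (B (g⁻¹ • i) : ℚ) + vec (S : Set Ω) g i * v i := by
        intro i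
        rw [hAv, ← hBq]; ring
      rw [Finset.sum_congr rfl fun i _ => this i, Finset.sum_add_distrib]
      have h0' : ∑ i, vec (S : Set Ω) g i * v i = 0 := h0
      rw [h0', add_zero]
    exact_mod_cast this
  refine ⟨A, B, S.card, by omega, ?_, ?_, hAB, ?_, ?_⟩
  · rintro (⟨c, hc⟩ | ⟨i, hi⟩)
    · -- constant
      have hc1 : c = 1 := by
        have : Fintype.card Ω * c = Fintype.card Ω := by
          conv_rhs => rw [← hAtot, Finset.sum_congr rfl fun i _ => hc i]
          rw [Finset.sum_const, Finset.card_univ, smul_eq_mul]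
        have hpos : 0 < Fintype.card Ω := by omega
        exact Nat.eq_of_mul_eq_mul_left hpos (by rw [this, mul_one])
      apply hne
      ext i
      have := hc i
      rw [hc1] at this
      simp only [A] at this
      split_ifs at this <;> simp_all
    · have h3 : ∑ j, A j = A i := by
        refine Finset.sum_eq_single_of_mem i (Finset.mem_univ _) ?_
        intro j _ hj
        by_contra h
        exact hj ((hi j).1 h)
      have := hAle i
      rw [hAtot] at h3
      omega
  · rintro (⟨c, hc⟩ | ⟨i, hi⟩)
    · obtain ⟨s, hs⟩ := hSne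
      have hc1 : c = 1 := by
        rw [← hc s]; simp only [B]; rw [if_pos (by simpa using hs)]
      have : S = Finset.univ := by
        ext i
        have := hc i
        simp only [B, hc1] at this
        by_cases hi : i ∈ S <;> simp_all
      rw [this, Finset.card_univ] at h2
      exact lt_irrefl _ h2
    · obtain ⟨x, hx, y, hy, hxy⟩ := Finset.one_lt_card.1 h1
      have hx' := (hi x).1 (by simp [B, hx])
      have hy' := (hi y).1 (by simp [B, hy])
      exact hxy (hx'.trans hy'.symm)
  · intro i
    simp only [B]
    split_ifs <;> simp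
  · rw [hAtot]

end SpreadPerm
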